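import Pool.Agent.K7.H96.GMC.Sep

set_option autoImplicit false

/-!
Determinants of `1 + Xᴴ X`.
-/

open MeasureTheory Set Filter Topology Matrix
open scoped ENNReal

namespace Pool.Agent.K7.H96.GMC

open Pool.Agent.R923.SE

variable {n : ℕ}

theorem det_star_conj {m : Type*} [Fintype m] [DecidableEq m] (X T T' L R : Matrix m m ℂ)
    (h1 : X * L = L * T) (h2 : R * T = T' * R) (h3 : Lᴴ * L = Rᴴ * R) (hR : R.det ≠ 0) :
    (1 + Xᴴ * X).det = (1 + T'ᴴ * T').det := by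
  have hRu : IsUnit R.det := isUnit_iff_ne_zero.2 hR
  set Q := L * R⁻¹ with hQ
  have hQQ : Qᴴ * Q = 1 := by
    rw [hQ, Matrix.conjTranspose_mul, Matrix.mul_assoc, ← Matrix.mul_assoc Lᴴ, h3,
      Matrix.mul_assoc, Matrix.mul_nonsing_inv _ hRu, Matrix.mul_one, ← Matrix.conjTranspose_mul,
      Matrix.mul_nonsing_inv _ hRu, Matrix.conjTranspose_one]
  have hXQ : X * Q = Q * T' := by
    rw [hQ, ← Matrix.mul_assoc, h1, Matrix.mul_assoc, Matrix.mul_assoc]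
    congr 1
    have : T' = R * T * R⁻¹ := by
      rw [h2, Matrix.mul_assoc, Matrix.mul_nonsing_inv _ hRu, Matrix.mul_one]
    rw [this, ← Matrix.mul_assoc, ← Matrix.mul_assoc, Matrix.nonsing_inv_mul _ hRu, Matrix.one_mul]
  have h4 : Qᴴ * (1 + Xᴴ * X) * Q = 1 + T'ᴴ * T' := by
    have e1 : Qᴴ * (1 + Xᴴ * X) * Q = Qᴴ * Q + (X * Q)ᴴ * (X * Q) := by
      rw [Matrix.conjTranspose_mul X Q]
      simp only [Matrix.mul_add, Matrix.add_mul, Matrix.mul_one, Matrix.mul_assoc]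
    have e2 : (X * Q)ᴴ * (X * Q) = T'ᴴ * (Qᴴ * Q) * T' := by
      rw [hXQ, Matrix.conjTranspose_mul]
      simp only [Matrix.mul_assoc]
    rw [e1, e2, hQQ, Matrix.mul_one]
  have h5 := congrArg Matrix.det h4
  have h6 : Qᴴ.det * Q.det = 1 := by rw [← Matrix.det_mul, hQQ, Matrix.det_one]
  rw [Matrix.det_mul, Matrix.det_mul] at h5
  rw [← h5]
  linear_combination -(1 + Xᴴ * X).det * h6

/-- block matrices as matrices -/
def bk (a : ℂ) (r s : Fin n → ℂ) (D : Matrix (Fin n) (Fin n) ℂ) :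
    Matrix (Fin (n + 1)) (Fin (n + 1)) ℂ := Matrix.of (blk a r s D)

theorem bk_eq (a : ℂ) (r s : Fin n → ℂ) (D : Matrix (Fin n) (Fin n) ℂ) :
    bk a r s D = Matrix.of (blk a r s D) := rfl

@[simp] theorem bk_00 (a : ℂ) (r s : Fin n → ℂ) (D : Matrix (Fin n) (Fin n) ℂ) :
    bk a r s D 0 0 = a := rfl
@[simp] theorem bk_0s (a : ℂ) (r s : Fin n → ℂ) (D : Matrix (Fin n) (Fin n) ℂ) (j : Fin n) :
    bk a r s D 0 j.succ = r j := rfl
@[simp] theorem bk_s0 (a : ℂ) (r s : Fin n → ℂ) (D : Matrix (Fin n) (Fin n) ℂ) (i : Fin n) :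
    bk a r s D i.succ 0 = s i := rfl
@[simp] theorem bk_ss (a : ℂ) (r s : Fin n → ℂ) (D : Matrix (Fin n) (Fin n) ℂ) (i j : Fin n) :
    bk a r s D i.succ j.succ = D i j := rfl

theorem bk_mul (a a' : ℂ) (r s r' s' : Fin n → ℂ) (D D' : Matrix (Fin n) (Fin n) ℂ) :
    bk a r s D * bk a' r' s' D' = bk (a * a' + r ⬝ᵥ s') (a • r' + r ᵥ* D')
      (a' • s + D *ᵥ s') (vecMulVec s r' + D * D') := by
  ext i j
  rw [Matrix.mul_apply, Fin.sum_univ_succ]
  refine Fin.cases ?_ (fun i => ?_) i <;> refine Fin.cases ?_ (fun j => ?_) j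
  · simp [dotProduct]
  · simp [Matrix.vecMul, dotProduct]
  · simp [Matrix.mulVec, dotProduct, mul_comm]
  · simp [Matrix.mul_apply, vecMulVec_apply]

theorem bk_star (a : ℂ) (r s : Fin n → ℂ) (D : Matrix (Fin n) (Fin n) ℂ) :
    (bk a r s D)ᴴ = bk (star a) (star s) (star r) Dᴴ := by
  ext i j
  rw [Matrix.conjTranspose_apply]
  refine Fin.cases ?_ (fun i => ?_) i <;> refine Fin.cases ?_ (fun j => ?_) j <;> simp

theorem bk_add (a a' : ℂ) (r s r' s' : Fin n → ℂ) (D D' : Matrix (Fin n) (Fin n) ℂ) :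
    bk a r s D + bk a' r' s' D' = bk (a + a') (r + r') (s + s') (D + D') := by
  ext i j
  rw [Matrix.add_apply]
  refine Fin.cases ?_ (fun i => ?_) i <;> refine Fin.cases ?_ (fun j => ?_) j <;> simp

theorem bk_one : (1 : Matrix (Fin (n + 1)) (Fin (n + 1)) ℂ) = bk 1 0 0 1 := by
  ext i j
  refine Fin.cases ?_ (fun i => ?_) i <;> refine Fin.cases ?_ (fun j => ?_) j
  · simp
  · simp [(Fin.succ_ne_zero j).symm]
  · simp
  · simp [Matrix.one_apply]

theorem bk_det (a : ℂ) (r s : Fin n → ℂ) (D : Matrix (Fin n) (Fin n) ℂ) :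
    (bk a r s D).det = a * D.det - r ⬝ᵥ (D.adjugate *ᵥ s) := bord a r s D

/-- `∑ |v i|²` -/
noncomputable def vs (v : Fin n → ℂ) : ℝ := ∑ i, ‖v i‖ ^ 2

theorem vs_nonneg (v : Fin n → ℂ) : 0 ≤ vs v := Finset.sum_nonneg fun _ _ => by positivity

theorem vs_eq (v : Fin n → ℂ) : ((vs v : ℝ) : ℂ) = star v ⬝ᵥ v := by
  simp only [vs, dotProduct, Pi.star_apply]
  push_cast
  exact Finset.sum_congr rfl fun i _ => (Complex.conj_mul' _).symm

theorem vs_eq' (v : Fin n → ℂ) : ((vs v : ℝ) : ℂ) = v ⬝ᵥ star v := by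
  rw [vs_eq, dotProduct_comm]

/-- the length `√(1 + |w|²)` -/
noncomputable def rho (w : Fin n → ℂ) : ℝ := √(1 + vs w)

theorem rho_sq (w : Fin n → ℂ) : rho w ^ 2 = 1 + vs w :=
  Real.sq_sqrt (by linarith [vs_nonneg w])

theorem rho_pos (w : Fin n → ℂ) : 0 < rho w := Real.sqrt_pos.2 (by linarith [vs_nonneg w])

/-- the square root of `1 - w wᴴ / ρ²` -/
noncomputable def Sw (w : Fin n → ℂ) : Matrix (Fin n) (Fin n) ℂ :=
  1 - ((rho w * (rho w + 1) : ℝ) : ℂ)⁻¹ • vecMulVec w (star w)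

theorem vecMulVec_self_mul (w : Fin n → ℂ) :
    vecMulVec w (star w) * vecMulVec w (star w) = ((vs w : ℝ) : ℂ) • vecMulVec w (star w) := by
  rw [Matrix.vecMulVec_mul_vecMulVec, ← vs_eq]
  ext i j
  simp [vecMulVec_apply]
  ring

theorem Sw_star (w : Fin n → ℂ) : (Sw w)ᴴ = Sw w := by
  unfold Sw
  rw [Matrix.conjTranspose_sub, Matrix.conjTranspose_one, Matrix.conjTranspose_smul,
    Matrix.conjTranspose_vecMulVec, star_star]
  congr 2
  simp

theorem Sw_sq (w : Fin n → ℂ) :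
    Sw w * Sw w = 1 - ((rho w ^ 2 : ℝ) : ℂ)⁻¹ • vecMulVec w (star w) := by
  have h0 := rho_pos w
  have h1 : ((vs w : ℝ) : ℂ) = ((rho w ^ 2 : ℝ) : ℂ) - 1 := by
    rw [rho_sq]; push_cast; ring
  have h2 : ((rho w : ℝ) : ℂ) ≠ 0 := by exact_mod_cast h0.ne'
  have h3 : ((rho w : ℝ) : ℂ) + 1 ≠ 0 := by
    have : (rho w + 1 : ℝ) ≠ 0 := by positivity
    exact_mod_cast this
  unfold Sw
  rw [Matrix.sub_mul, Matrix.one_mul, Matrix.mul_sub, Matrix.mul_one, Matrix.smul_mul,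
    Matrix.mul_smul, vecMulVec_self_mul, h1, smul_smul, smul_smul]
  rw [sub_sub, ← add_sub_assoc, ← add_smul, ← sub_smul]
  congr 2
  push_cast
  field_simp
  ring

theorem Sw_det (w : Fin n → ℂ) : (Sw w).det = ((rho w : ℝ) : ℂ)⁻¹ := by
  have h0 := rho_pos w
  have h1 : ((vs w : ℝ) : ℂ) = ((rho w ^ 2 : ℝ) : ℂ) - 1 := by
    rw [rho_sq]; push_cast; ring
  have h2 : ((rho w : ℝ) : ℂ) ≠ 0 := by exact_mod_cast h0.ne'
  have h3 : ((rho w : ℝ) : ℂ) + 1 ≠ 0 := by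
    have : (rho w + 1 : ℝ) ≠ 0 := by positivity
    exact_mod_cast this
  have e : Sw w = 1 + replicateCol Unit (-((rho w * (rho w + 1) : ℝ) : ℂ)⁻¹ • w) *
      replicateRow Unit (star w) := by
    unfold Sw
    rw [sub_eq_add_neg]
    congr 1
    ext i j
    simp [Matrix.mul_apply, vecMulVec_apply]
    ring
  rw [e, Matrix.det_one_add_replicateCol_mul_replicateRow, dotProduct_smul, ← vs_eq, h1, smul_eq_mul]
  push_cast
  field_simp
  ring

/-- `det (1 + Xᴴ X)` -/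
noncomputable def dd {m : ℕ} (X : Matrix (Fin m) (Fin m) ℂ) : ℂ := (1 + Xᴴ * X).det

/-- the shifted first row -/
noncomputable def cw (z : ℂ) (w c : Fin n → ℂ) (X : Matrix (Fin n) (Fin n) ℂ) : Fin n → ℂ :=
  (((rho w : ℝ) : ℂ) • c + ((rho w : ℝ) : ℂ)⁻¹ • (star w ᵥ* (X - z • 1))) ᵥ* (Sw w)⁻¹

theorem dd_Ph (z : ℂ) (w c : Fin n → ℂ) (X : Matrix (Fin n) (Fin n) ℂ) :
    dd (bk (z - c ⬝ᵥ w) c ((z - c ⬝ᵥ w) • w - X *ᵥ w) (X + vecMulVec w c)) =
      dd (bk z (cw z w c X) 0 (Sw w * X * (Sw w)⁻¹)) := by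
  have h0 := rho_pos w
  have h2 : ((rho w : ℝ) : ℂ) ≠ 0 := by exact_mod_cast h0.ne'
  have hS : (Sw w).det ≠ 0 := by rw [Sw_det]; exact inv_ne_zero h2
  have hSu : IsUnit (Sw w).det := isUnit_iff_ne_zero.2 hS
  unfold dd
  refine det_star_conj _ (bk z c 0 X) _ (bk 1 0 w 1)
    (bk ((rho w : ℝ) : ℂ) (((rho w : ℝ) : ℂ)⁻¹ • star w) 0 (Sw w)) ?_ ?_ ?_ ?_
  · rw [bk_mul, bk_mul]
    congr 1
    · simp
    · simp
    · simp only [one_smul, Matrix.add_mulVec, Matrix.one_mulVec, add_zero, Matrix.vecMulVec_mulVec]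
      funext i
      simp only [Pi.add_apply, Pi.sub_apply, Pi.smul_apply, smul_eq_mul, MulOpposite.smul_eq_mul_unop,
        MulOpposite.unop_op]
      ring
    · rw [Matrix.mul_one, Matrix.one_mul]
      ext i j
      simp [vecMulVec_apply]
      ring
  · rw [bk_mul, bk_mul]
    congr 1
    · simp [mul_comm]
    · have e : cw z w c X ᵥ* Sw w = ((rho w : ℝ) : ℂ) • c +
          ((rho w : ℝ) : ℂ)⁻¹ • (star w ᵥ* (X - z • 1)) := by
        unfold cw
        rw [Matrix.vecMul_vecMul, Matrix.nonsing_inv_mul _ hSu, Matrix.vecMul_one]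
      rw [e, Matrix.vecMul_sub, Matrix.vecMul_smul, Matrix.vecMul_one, Matrix.smul_vecMul]
      funext i
      simp only [Pi.add_apply, Pi.sub_apply, Pi.smul_apply, smul_eq_mul]
      ring
    · simp
    · rw [Matrix.mul_assoc _ _ (Sw w), Matrix.nonsing_inv_mul _ hSu, Matrix.mul_one]
      ext i j
      simp [vecMulVec_apply]
  · rw [bk_star, bk_star, bk_mul, bk_mul]
    congr 1
    · have h1 : ((vs w : ℝ) : ℂ) = ((rho w ^ 2 : ℝ) : ℂ) - 1 := by
        rw [rho_sq]; push_cast; ring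
      simp only [star_one, mul_one, star_zero, zero_dotProduct, add_zero]
      rw [← vs_eq, h1]
      simp
      ring
    · funext i
      simp
      field_simp
    · funext i
      simp
      field_simp
    · rw [Sw_star, Sw_sq]
      ext i j
      simp only [Matrix.add_apply, Matrix.sub_apply, vecMulVec_apply, Matrix.smul_apply,
        star_zero, Matrix.conjTranspose_one, Matrix.mul_one, star_smul, star_star, Pi.smul_apply,
        smul_eq_mul, Pi.zero_apply, mul_zero, zero_add, Pi.star_apply]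
      simp
      field_simp
      ring
  · rw [bk_det, Matrix.mulVec_zero, dotProduct_zero, sub_zero]
    exact mul_ne_zero h2 hS

end Pool.Agent.K7.H96.GMC
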