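import Mathlib

set_option autoImplicit false

/-!
The area formula in one complex variable, with exact multiplicity.
-/

open MeasureTheory Set Filter Topology

namespace Pool.Agent.K7.H96.GMC

theorem mult_det (w : ℂ) :
    ContinuousLinearMap.det (w • (ContinuousLinearMap.id ℝ ℂ)) = ‖w‖ ^ 2 := by
  have h1 : (((w • (ContinuousLinearMap.id ℝ ℂ)) : ℂ →L[ℝ] ℂ) : ℂ →ₗ[ℝ] ℂ)
      = Algebra.lmul ℝ ℂ w := by
    ext <;> simp
  rw [ContinuousLinearMap.det, h1, ← Algebra.norm_apply, Algebra.norm_complex_apply,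
    Complex.normSq_eq_norm_sq]

theorem count_eq {U : Set ℂ} (g : ℂ → ℂ) (S' : ℕ → Set ℂ) (hU : U = ⋃ k, S' k)
    (hinj : ∀ k, InjOn g (S' k))
    (hdisj : Pairwise (Function.onFun Disjoint S')) (F : Finset ℂ) (w : ℂ)
    (hF : ∀ z, z ∈ F ↔ z ∈ U ∧ g z = w) :
    ∑' k, (g '' (S' k)).indicator (fun _ => (1 : ENNReal)) w = (F.card : ENNReal) := by
  classical
  have h1 : ∀ k, (g '' (S' k)).indicator (fun _ => (1 : ENNReal)) w =
      ∑ z ∈ F, (S' k).indicator (fun _ => (1 : ENNReal)) z := by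
    intro k
    by_cases h : w ∈ g '' (S' k)
    · obtain ⟨z, hz, hz'⟩ := h
      have hzU : z ∈ U := by rw [hU]; exact mem_iUnion.2 ⟨k, hz⟩
      rw [Set.indicator_of_mem (show w ∈ g '' S' k from ⟨z, hz, hz'⟩), Finset.sum_eq_single z]
      · rw [Set.indicator_of_mem hz]
      · intro b hb hbz
        rw [Set.indicator_of_notMem]
        intro hbS
        exact hbz (hinj k hbS hz (by rw [((hF b).1 hb).2, hz']))
      · intro h
        exact absurd ((hF z).2 ⟨hzU, hz'⟩) h
    · rw [Set.indicator_of_notMem h]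
      symm
      refine Finset.sum_eq_zero fun z hz => ?_
      rw [Set.indicator_of_notMem]
      intro hzS
      exact h ⟨z, hzS, ((hF z).1 hz).2⟩
  have h2 : ∀ z ∈ F, ∑' k, (S' k).indicator (fun _ => (1 : ENNReal)) z = 1 := by
    intro z hz
    have hzU : z ∈ ⋃ k, S' k := by rw [← hU]; exact ((hF z).1 hz).1
    obtain ⟨k, hk⟩ := mem_iUnion.1 hzU
    rw [tsum_eq_single k, Set.indicator_of_mem hk]
    intro j hj
    rw [Set.indicator_of_notMem]
    intro hzj
    exact Set.disjoint_left.1 (hdisj hj) hzj hk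
  simp_rw [h1]
  rw [Summable.tsum_finsetSum (fun _ _ => ENNReal.summable), Finset.sum_congr rfl h2]
  simp

/-- The area formula with exact multiplicity `N`. -/
theorem area_eq (g g' : ℂ → ℂ) {U : Set ℂ} (hU : MeasurableSet U)
    (hg : ∀ z ∈ U, HasDerivAt g (g' z) z) (hg0 : ∀ z ∈ U, g' z ≠ 0) (N : ℕ)
    (hN : ∀ᵐ w : ℂ, ∃ F : Finset ℂ, F.card = N ∧ ∀ z, z ∈ F ↔ z ∈ U ∧ g z = w)
    (ψ : ℂ → ENNReal) (hψ : Measurable ψ) :
    ∫⁻ z in U, ENNReal.ofReal (‖g' z‖ ^ 2) * ψ (g z) = N * ∫⁻ w, ψ w := by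
  classical
  set f' : ℂ → (ℂ →L[ℝ] ℂ) := fun z => (g' z) • (ContinuousLinearMap.id ℝ ℂ) with hf'
  have hder : ∀ z ∈ U, HasFDerivAt g (f' z) z := by
    intro z hz
    have h2 := (hg z hz).complexToReal_fderiv
    refine h2.congr_fderiv ?_
    ext <;> simp [hf']
  have hdet : ∀ z, (f' z).det = ‖g' z‖ ^ 2 := fun z => mult_det _
  have hdet0 : ∀ z ∈ U, (f' z).det ≠ 0 := by
    intro z hz
    rw [hdet]
    have := hg0 z hz
    positivity
  let r : (ℂ →L[ℝ] ℂ) → NNReal := fun A =>
    if h : A.det ≠ 0 then ‖((A.toContinuousLinearEquivOfDetNeZero h).symm : ℂ →L[ℝ] ℂ)‖₊⁻¹ / 2 +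
      (if ‖((A.toContinuousLinearEquivOfDetNeZero h).symm : ℂ →L[ℝ] ℂ)‖₊ = 0 then 1 else 0) else 1
  have rpos : ∀ A, r A ≠ 0 := by
    intro A
    simp only [r]
    split_ifs with h h2
    · positivity
    · positivity
    · exact one_ne_zero
  obtain ⟨t, A, hdisj, htm, hcov, happ, hex⟩ :=
    exists_partition_approximatesLinearOn_of_hasFDerivWithinAt g U f'
      (fun x hx => (hder x hx).hasFDerivWithinAt) r rpos
  have hinj : ∀ k, InjOn g (U ∩ t k) := by
    intro k
    by_cases hne : U.Nonempty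
    · obtain ⟨y, hy, hAy⟩ := hex hne k
      have hd : (A k).det ≠ 0 := by rw [hAy]; exact hdet0 y hy
      have h1 : ApproximatesLinearOn g
        (((A k).toContinuousLinearEquivOfDetNeZero hd : ℂ ≃L[ℝ] ℂ) : ℂ →L[ℝ] ℂ)
        (U ∩ t k) (r (A k)) := by
        simpa using happ k
      refine h1.injOn ?_
      by_cases hz : ‖(((A k).toContinuousLinearEquivOfDetNeZero hd).symm : ℂ →L[ℝ] ℂ)‖₊ = 0
      · left
        refine ⟨fun a b => ?_⟩
        have h0 : (((A k).toContinuousLinearEquivOfDetNeZero hd).symm : ℂ →L[ℝ] ℂ) = 0 := by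
          simpa using hz
        have : ∀ c : ℂ, c = 0 := by
          intro c
          have h3 := congrArg (fun L : ℂ →L[ℝ] ℂ => L ((A k).toContinuousLinearEquivOfDetNeZero hd c)) h0
          have h4 := ((A k).toContinuousLinearEquivOfDetNeZero hd).symm_apply_apply c
          rw [← h4]
          exact h3
        rw [this a, this b]
      · right
        simp only [r, dif_pos hd, if_neg hz, add_zero]
        exact NNReal.half_lt_self (by simpa using hz)
    · rw [Set.not_nonempty_iff_eq_empty] at hne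
      simp [hne]
  set S' : ℕ → Set ℂ := fun k => U ∩ t k with hS'
  have hSm' : ∀ k, MeasurableSet (S' k) := fun k => hU.inter (htm k)
  have hder' : ∀ k, ∀ x ∈ S' k, HasFDerivWithinAt g (f' x) (S' k) x := fun k x hx =>
    (hder x hx.1).hasFDerivWithinAt
  have him : ∀ k, MeasurableSet (g '' (S' k)) := fun k =>
    measurable_image_of_fderivWithin (hSm' k) (hder' k) (hinj k)
  have hUn : U = ⋃ k, S' k := by
    ext x; constructor
    · intro hx
      obtain ⟨k, hk⟩ := mem_iUnion.1 (hcov hx)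
      exact mem_iUnion.2 ⟨k, hx, hk⟩
    · intro hx
      obtain ⟨k, hk⟩ := mem_iUnion.1 hx
      exact hk.1
  have hdisj' : Pairwise (Function.onFun Disjoint S') := by
    intro i j hij
    exact (hdisj hij).mono inter_subset_right inter_subset_right
  calc ∫⁻ z in U, ENNReal.ofReal (‖g' z‖ ^ 2) * ψ (g z)
      = ∑' k, ∫⁻ z in S' k, ENNReal.ofReal (‖g' z‖ ^ 2) * ψ (g z) := by
        conv_lhs => rw [hUn]
        exact lintegral_iUnion hSm' hdisj' _
    _ = ∑' k, ∫⁻ y in g '' (S' k), ψ y := by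
        refine tsum_congr fun k => ?_
        rw [lintegral_image_eq_lintegral_abs_det_fderiv_mul volume (hSm' k) (hder' k) (hinj k) ψ]
        refine lintegral_congr fun x => ?_
        rw [hdet, abs_of_nonneg (by positivity)]
    _ = ∑' k, ∫⁻ y, (g '' (S' k)).indicator ψ y := by
        refine tsum_congr fun k => ?_
        rw [lintegral_indicator (him k)]
    _ = ∫⁻ y, ∑' k, (g '' (S' k)).indicator ψ y :=
        (lintegral_tsum (fun k => (hψ.indicator (him k)).aemeasurable)).symm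
    _ = ∫⁻ w, N * ψ w := by
        refine lintegral_congr_ae ?_
        filter_upwards [hN] with y hy
        obtain ⟨F, hFc, hF⟩ := hy
        have h1 : ∑' k, (g '' (S' k)).indicator ψ y =
            ψ y * ∑' k, (g '' (S' k)).indicator (fun _ => (1 : ENNReal)) y := by
          rw [← ENNReal.tsum_mul_left]
          refine tsum_congr fun k => ?_
          by_cases hy : y ∈ g '' (S' k)
          · simp [hy]
          · simp [hy]
        rw [h1, count_eq g S' hUn hinj hdisj' F y hF, hFc, mul_comm]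
    _ = N * ∫⁻ w, ψ w := lintegral_const_mul _ hψ

end Pool.Agent.K7.H96.GMC
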