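import Pool.Agent.K7.H96.GMC.Alg
import Pool.Agent.R923.SE.Base

set_option autoImplicit false

/-!
The integral of `(b + |v|²)^(-a)`.
-/

open MeasureTheory Set Filter Topology Matrix
open scoped ENNReal

namespace Pool.Agent.K7.H96.GMC

open Pool.Agent.R923.SE

variable {n : ℕ}

theorem lint_gamma {a r : ℝ} (ha : 0 < a) (hr : 0 < r) :
    ∫⁻ t in Ioi (0 : ℝ), ENNReal.ofReal (t ^ (a - 1) * Real.exp (-(r * t))) =
      ENNReal.ofReal ((1 / r) ^ a * Real.Gamma a) := by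
  have h := Real.integral_rpow_mul_exp_neg_mul_Ioi ha hr
  have hpos : 0 < (1 / r) ^ a * Real.Gamma a :=
    mul_pos (Real.rpow_pos_of_pos (by positivity) _) (Real.Gamma_pos_of_pos ha)
  have hi : Integrable (fun t : ℝ => t ^ (a - 1) * Real.exp (-(r * t)))
      (volume.restrict (Ioi (0 : ℝ))) := by
    by_contra hc
    rw [integral_undef hc] at h
    exact hpos.ne h
  rw [← h, ofReal_integral_eq_lintegral_ofReal hi]
  filter_upwards [ae_restrict_mem measurableSet_Ioi] with t ht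
  exact mul_nonneg (Real.rpow_nonneg (le_of_lt ht) _) (Real.exp_pos _).le

theorem lint_gauss1 {t : ℝ} (ht : 0 < t) :
    ∫⁻ z : ℂ, ENNReal.ofReal (Real.exp (-t * ‖z‖ ^ 2)) = ENNReal.ofReal (Real.pi / t) := by
  have h := Complex.integral_exp_neg_mul_rpow (p := 2) (b := t) (by norm_num) ht
  simp only [Real.rpow_two] at h
  have e : Real.pi * t ^ (-2 / 2 : ℝ) * Real.Gamma (2 / 2 + 1) = Real.pi / t := by
    rw [show (-2 / 2 : ℝ) = -1 by norm_num, Real.rpow_neg_one, show (2 / 2 + 1 : ℝ) = 2 by norm_num,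
      Real.Gamma_two]
    ring
  rw [e] at h
  have hpos : 0 < Real.pi / t := by positivity
  have hi : Integrable (fun z : ℂ => Real.exp (-t * ‖z‖ ^ 2)) := by
    by_contra hc
    rw [integral_undef hc] at h
    exact hpos.ne h
  rw [← h, ofReal_integral_eq_lintegral_ofReal hi]
  exact Filter.Eventually.of_forall fun z => (Real.exp_pos _).le

theorem lint_gauss (n : ℕ) {t : ℝ} (ht : 0 < t) :
    ∫⁻ v : Fin n → ℂ, ENNReal.ofReal (Real.exp (-t * vs v)) = ENNReal.ofReal ((Real.pi / t) ^ n) := by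
  have h := Base.lintegral_fin_prod (n := n) (E := fun _ => ℂ) (μ := fun _ => volume)
    (fun _ z => ENNReal.ofReal (Real.exp (-t * ‖z‖ ^ 2))) (fun _ => by fun_prop)
  have e : ∀ v : Fin n → ℂ, ENNReal.ofReal (Real.exp (-t * vs v)) =
      ∏ i, ENNReal.ofReal (Real.exp (-t * ‖v i‖ ^ 2)) := by
    intro v
    rw [vs, Finset.mul_sum, Real.exp_sum, ENNReal.ofReal_prod_of_nonneg]
    exact fun i _ => (Real.exp_pos _).le
  simp_rw [e]
  rw [volume_pi, h]
  simp only [lint_gauss1 ht, Finset.prod_const, Finset.card_univ, Fintype.card_fin]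
  rw [← ENNReal.ofReal_pow (by positivity)]

theorem inv_eq_adj' (A : Matrix (Fin n) (Fin n) ℂ) : A⁻¹ = (A.det)⁻¹ • A.adjugate := by
  rw [Matrix.inv_def, Ring.inverse_eq_inv']

theorem continuous_vs : Continuous (vs : (Fin n → ℂ) → ℝ) := by
  unfold vs; fun_prop

theorem lint_beta (n : ℕ) {a b : ℝ} (ha : (n : ℝ) < a) (hb : 0 < b) :
    ∫⁻ v : Fin n → ℂ, ENNReal.ofReal ((b + vs v) ^ (-a)) =
      ENNReal.ofReal (b ^ (-a + n) * (Real.pi ^ n * (Real.Gamma (a - n) / Real.Gamma a))) := by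
  have ha0 : 0 < a := lt_of_le_of_lt (Nat.cast_nonneg n) ha
  have hG : 0 < Real.Gamma a := Real.Gamma_pos_of_pos ha0
  have h1 : ∀ v : Fin n → ℂ, ENNReal.ofReal ((b + vs v) ^ (-a)) * ENNReal.ofReal (Real.Gamma a) =
      ∫⁻ t in Ioi (0 : ℝ), ENNReal.ofReal (t ^ (a - 1) * Real.exp (-(b * t))) *
        ENNReal.ofReal (Real.exp (-t * vs v)) := by
    intro v
    have hv := vs_nonneg v
    have hbv : 0 < b + vs v := by linarith
    rw [← ENNReal.ofReal_mul (Real.rpow_nonneg hbv.le _)]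
    have e := lint_gamma ha0 hbv
    rw [one_div, Real.inv_rpow hbv.le, ← Real.rpow_neg hbv.le] at e
    rw [← e]
    refine lintegral_congr fun t => ?_
    rw [← ENNReal.ofReal_mul' (Real.exp_pos _).le, mul_assoc, ← Real.exp_add]
    congr 3
    ring
  have h2 : (∫⁻ v : Fin n → ℂ, ENNReal.ofReal ((b + vs v) ^ (-a))) * ENNReal.ofReal (Real.Gamma a) =
      ENNReal.ofReal (b ^ (-a + n) * (Real.pi ^ n * Real.Gamma (a - n))) := by
    rw [← lintegral_mul_const' _ _ ENNReal.ofReal_ne_top]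
    simp_rw [h1]
    rw [lintegral_lintegral_swap]
    · have h3 : ∀ t ∈ Ioi (0 : ℝ), ∫⁻ v : Fin n → ℂ,
          ENNReal.ofReal (t ^ (a - 1) * Real.exp (-(b * t))) *
            ENNReal.ofReal (Real.exp (-t * vs v)) =
          ENNReal.ofReal (Real.pi ^ n) *
            ENNReal.ofReal (t ^ (a - n - 1) * Real.exp (-(b * t))) := by
        intro t ht
        have ht' : (0 : ℝ) < t := ht
        rw [lintegral_const_mul' _ _ ENNReal.ofReal_ne_top, lint_gauss n ht',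
          ← ENNReal.ofReal_mul (by positivity), ← ENNReal.ofReal_mul (by positivity)]
        congr 1
        have e1 : t ^ (a - n - 1) = t ^ (a - 1) / t ^ n := by
          rw [show a - n - 1 = (a - 1) - n by ring, Real.rpow_sub ht', Real.rpow_natCast]
        rw [e1, div_pow]
        ring
      rw [setLIntegral_congr_fun measurableSet_Ioi h3,
        lintegral_const_mul' _ _ ENNReal.ofReal_ne_top, lint_gamma (by linarith) hb,
        ← ENNReal.ofReal_mul (by positivity)]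
      congr 1
      rw [one_div, Real.inv_rpow hb.le, ← Real.rpow_neg hb.le]
      rw [show -(a - (n : ℝ)) = -a + n by ring]
      ring
    · refine Measurable.aemeasurable ?_
      have : Measurable fun p : (Fin n → ℂ) × ℝ => ENNReal.ofReal (p.2 ^ (a - 1) *
          Real.exp (-(b * p.2))) * ENNReal.ofReal (Real.exp (-p.2 * vs p.1)) := by
        have h4 : Measurable fun p : (Fin n → ℂ) × ℝ => vs p.1 :=
          continuous_vs.measurable.comp measurable_fst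
        refine (ENNReal.measurable_ofReal.comp ?_).mul (ENNReal.measurable_ofReal.comp ?_)
        · exact (measurable_snd.pow_const _).mul (Real.measurable_exp.comp
            (measurable_const.mul measurable_snd).neg)
        · exact Real.measurable_exp.comp (measurable_snd.neg.mul h4)
      exact this
  have h5 : ENNReal.ofReal (Real.Gamma a) ≠ 0 := by simpa using hG
  have h6 := congrArg (fun x => x / ENNReal.ofReal (Real.Gamma a)) h2
  rw [ENNReal.mul_div_cancel_right h5 ENNReal.ofReal_ne_top] at h6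
  rw [h6, ← ENNReal.ofReal_div_of_pos hG]
  congr 1
  ring

open scoped ComplexOrder MatrixOrder Matrix.Norms.L2Operator in
theorem exists_chol (Y : Matrix (Fin n) (Fin n) ℂ) : ∃ C : Matrix (Fin n) (Fin n) ℂ,
    C.det ≠ 0 ∧ 1 + Yᴴ * Y = Cᴴ * C := by
  have hp : (1 + Yᴴ * Y).PosDef :=
    Matrix.PosDef.one.add_posSemidef (posSemidef_conjTranspose_mul_self Y)
  obtain ⟨C, hC⟩ := CStarAlgebra.nonneg_iff_eq_star_mul_self.mp hp.posSemidef.nonneg
  refine ⟨C, ?_, hC⟩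
  intro h0
  have h1 := hp.det_pos
  rw [hC, Matrix.star_eq_conjTranspose, Matrix.det_mul, h0, mul_zero] at h1
  exact lt_irrefl _ h1

theorem dd_chol {Y C : Matrix (Fin n) (Fin n) ℂ} (hC : 1 + Yᴴ * Y = Cᴴ * C) :
    dd Y = ((‖C.det‖ ^ 2 : ℝ) : ℂ) := by
  rw [dd, hC, Matrix.det_mul, Matrix.det_conjTranspose]
  push_cast
  exact Complex.conj_mul' _

theorem dd_comm (Y : Matrix (Fin n) (Fin n) ℂ) : (1 + Y * Yᴴ).det = dd Y := by
  rw [dd, Matrix.det_one_add_mul_comm]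

theorem dd_blk (z : ℂ) (c : Fin n → ℂ) {Y C : Matrix (Fin n) (Fin n) ℂ} (hC0 : C.det ≠ 0)
    (hC : 1 + Yᴴ * Y = Cᴴ * C) :
    dd (bk z c 0 Y) = ((‖C.det‖ ^ 2 * (1 + ‖z‖ ^ 2 + vs (c ᵥ* C⁻¹)) : ℝ) : ℂ) := by
  have hCu : IsUnit C.det := isUnit_iff_ne_zero.2 hC0
  have hD : (1 + Y * Yᴴ).det ≠ 0 := by
    rw [dd_comm, dd_chol hC]
    have : (0 : ℝ) < ‖C.det‖ ^ 2 := by positivity
    exact_mod_cast this.ne'
  have hDu : IsUnit (1 + Y * Yᴴ).det := isUnit_iff_ne_zero.2 hD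
  have hE : (1 + Yᴴ * Y).det ≠ 0 := by
    rw [hC, Matrix.det_mul, Matrix.det_conjTranspose]
    exact mul_ne_zero (star_ne_zero.2 hC0) hC0
  have hEu : IsUnit (1 + Yᴴ * Y).det := isUnit_iff_ne_zero.2 hE
  -- Woodbury
  have hW : 1 - Yᴴ * (1 + Y * Yᴴ)⁻¹ * Y = (1 + Yᴴ * Y)⁻¹ := by
    have h1 : (1 + Yᴴ * Y) * (1 - Yᴴ * (1 + Y * Yᴴ)⁻¹ * Y) = 1 := by
      have h2 : (1 + Yᴴ * Y) * Yᴴ = Yᴴ * (1 + Y * Yᴴ) := by
        rw [Matrix.add_mul, Matrix.mul_add, Matrix.one_mul, Matrix.mul_one, Matrix.mul_assoc]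
      rw [Matrix.mul_sub, Matrix.mul_one, ← Matrix.mul_assoc, ← Matrix.mul_assoc, h2,
        Matrix.mul_assoc Yᴴ, Matrix.mul_nonsing_inv _ hDu, Matrix.mul_one, add_sub_cancel_right]
    exact (Matrix.inv_eq_right_inv h1).symm
  have h1 : dd (bk z c 0 Y) = (1 + bk z c 0 Y * (bk z c 0 Y)ᴴ).det := (dd_comm _).symm
  rw [h1, bk_star, bk_mul, bk_one, bk_add, bk_det]
  have h2 : (1 + (vecMulVec (0 : Fin n → ℂ) (star (0 : Fin n → ℂ)) + Y * Yᴴ) : Matrix (Fin n) (Fin n) ℂ) =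
      1 + Y * Yᴴ := by
    congr 1
    ext i j
    simp [vecMulVec_apply]
  rw [h2]
  have h3 : (1 + Y * Yᴴ).adjugate = (1 + Y * Yᴴ).det • (1 + Y * Yᴴ)⁻¹ := by
    rw [inv_eq_adj', smul_smul, mul_inv_cancel₀ hD, one_smul]
  rw [h3, Matrix.smul_mulVec, dotProduct_smul, smul_eq_mul, dd_comm, dd_chol hC]
  simp only [star_zero, smul_zero, zero_add]
  have h4 : (c ᵥ* Yᴴ) ⬝ᵥ ((1 + Y * Yᴴ)⁻¹ *ᵥ (Y *ᵥ star c)) =
      c ⬝ᵥ star c - c ⬝ᵥ ((1 + Yᴴ * Y)⁻¹ *ᵥ star c) := by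
    rw [← hW, Matrix.sub_mulVec, dotProduct_sub, Matrix.one_mulVec, sub_sub_cancel,
      ← Matrix.mulVec_mulVec, ← Matrix.mulVec_mulVec, ← Matrix.dotProduct_mulVec]
  have h5 : c ⬝ᵥ ((1 + Yᴴ * Y)⁻¹ *ᵥ star c) = ((vs (c ᵥ* C⁻¹) : ℝ) : ℂ) := by
    rw [vs_eq', hC, Matrix.mul_inv_rev, ← Matrix.mulVec_mulVec, Matrix.dotProduct_mulVec,
      Matrix.star_vecMul, Matrix.conjTranspose_nonsing_inv]
  rw [h4, h5, ← vs_eq']
  have h6 : z * star z = ((‖z‖ : ℝ) : ℂ) ^ 2 := Complex.mul_conj' z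
  push_cast
  linear_combination ((‖C.det‖ : ℝ) : ℂ) ^ 2 * h6

end Pool.Agent.K7.H96.GMC
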