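import Pool.Agent.K7.H95.GMC.Defs

set_option autoImplicit false

/-!
Block decomposition of `(n+1) × (n+1)` matrices.
-/

open MeasureTheory Set Filter Topology Matrix
open scoped ENNReal

namespace Pool.Agent.K7.H96.GMC

open Pool.Agent.R923.SE

theorem mp_cons (E : Type*) [MeasureSpace E] [SigmaFinite (volume : Measure E)] (n : ℕ) :
    MeasurePreserving (fun x : E × (Fin n → E) => (Fin.cons x.1 x.2 : Fin (n + 1) → E))
      volume volume := by
  have h := (volume_preserving_piFinSuccAbove (fun _ : Fin (n + 1) => E) 0).symm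
  have e : (fun x : E × (Fin n → E) => (Fin.cons x.1 x.2 : Fin (n + 1) → E)) =
      ⇑(MeasurableEquiv.piFinSuccAbove (fun _ : Fin (n + 1) => E) 0).symm := by
    funext x
    exact (Fin.insertNth_zero' x.1 x.2).symm
  rw [e]
  exact h

theorem lint_cons {E : Type*} [MeasureSpace E] [SigmaFinite (volume : Measure E)] (n : ℕ)
    (f : (Fin (n + 1) → E) → ℝ≥0∞) (hf : Measurable f) :
    ∫⁻ r, f r = ∫⁻ c : Fin n → E, ∫⁻ a : E, f (Fin.cons a c) := by
  have h := mp_cons E n
  rw [← h.lintegral_comp hf, Measure.volume_eq_prod]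
  exact lintegral_prod_symm' _ (hf.comp h.measurable)

theorem mp_rows (n m : ℕ) : MeasurePreserving (fun (x : (Fin m → ℂ) × (Fin m → Fin n → ℂ))
    (i : Fin m) => (Fin.cons (x.1 i) (x.2 i) : Fin (n + 1) → ℂ)) volume volume := by
  have h1 : MeasurePreserving (fun (M : Fin m → ℂ × (Fin n → ℂ)) (i : Fin m) =>
      (Fin.cons (M i).1 (M i).2 : Fin (n + 1) → ℂ)) volume volume :=
    volume_preserving_pi (f := fun (_ : Fin m) (x : ℂ × (Fin n → ℂ)) =>
      (Fin.cons x.1 x.2 : Fin (n + 1) → ℂ)) fun _ => mp_cons ℂ n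
  have h2 := (volume_measurePreserving_arrowProdEquivProdArrow ℂ (Fin n → ℂ) (Fin m)).symm
  exact h1.comp h2

theorem lint_rows {n m : ℕ} (f : (Fin m → Fin (n + 1) → ℂ) → ℝ≥0∞) (hf : Measurable f) :
    ∫⁻ M, f M = ∫⁻ M : Fin m → Fin n → ℂ, ∫⁻ β : Fin m → ℂ,
      f (fun i => Fin.cons (β i) (M i)) := by
  have h := mp_rows n m
  rw [← h.lintegral_comp hf, Measure.volume_eq_prod]
  exact lintegral_prod_symm' _ (hf.comp h.measurable)

/-- block matrices -/
def blk {n : ℕ} (α : ℂ) (c β : Fin n → ℂ) (M : Mt n n) : Mt (n + 1) (n + 1) :=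
  Fin.cons (Fin.cons α c) (fun i => Fin.cons (β i) (M i))

theorem lint_blk {n : ℕ} (F : Mt (n + 1) (n + 1) → ℝ≥0∞) (hF : Measurable F) :
    ∫⁻ X, F X = ∫⁻ M : Mt n n, ∫⁻ β : Fin n → ℂ, ∫⁻ c : Fin n → ℂ, ∫⁻ α : ℂ,
      F (blk α c β M) := by
  rw [lint_cons n F hF, lint_rows]
  · refine lintegral_congr fun M => lintegral_congr fun β => ?_
    rw [lint_cons n]
    · rfl
    · refine hF.comp ?_
      refine measurable_pi_iff.2 fun i => ?_
      refine Fin.cases ?_ (fun j => ?_) i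
      · exact measurable_id
      · exact measurable_const
  · refine Measurable.lintegral_prod_right' (f := fun p : (Fin n → Fin (n + 1) → ℂ) ×
      (Fin (n + 1) → ℂ) => F (Fin.cons p.2 p.1)) (hF.comp ?_)
    refine measurable_pi_iff.2 fun i => ?_
    refine Fin.cases ?_ (fun j => ?_) i
    · exact measurable_snd
    · exact (measurable_pi_apply j).comp measurable_fst

theorem continuous_blk {n : ℕ} : Continuous
    (fun p : ℂ × (Fin n → ℂ) × (Fin n → ℂ) × Mt n n => blk p.1 p.2.1 p.2.2.1 p.2.2.2) := by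
  refine continuous_pi fun i => continuous_pi fun j => ?_
  refine Fin.cases ?_ (fun i => ?_) i <;> refine Fin.cases ?_ (fun j => ?_) j
  · exact continuous_fst
  · show Continuous fun p : ℂ × (Fin n → ℂ) × (Fin n → ℂ) × Mt n n => p.2.1 j
    fun_prop
  · show Continuous fun p : ℂ × (Fin n → ℂ) × (Fin n → ℂ) × Mt n n => p.2.2.1 i
    fun_prop
  · show Continuous fun p : ℂ × (Fin n → ℂ) × (Fin n → ℂ) × Mt n n => p.2.2.2 i j
    fun_prop

/-- the index equivalence -/
def ix (n : ℕ) : Unit ⊕ Fin n ≃ Fin (n + 1) where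
  toFun := Sum.elim (fun _ => 0) Fin.succ
  invFun := Fin.cases (Sum.inl ()) Sum.inr
  left_inv := by rintro (_ | i) <;> simp
  right_inv := by intro i; refine Fin.cases ?_ (fun j => ?_) i <;> simp

theorem blk_eq {n : ℕ} (α : ℂ) (c β : Fin n → ℂ) (M : Mt n n) :
    Matrix.of (blk α c β M) = reindex (ix n) (ix n)
      (fromBlocks (Matrix.of fun _ _ => α : Matrix Unit Unit ℂ) (replicateRow Unit c)
        (replicateCol Unit β) (Matrix.of M)) := by
  ext i j
  refine Fin.cases ?_ (fun i => ?_) i <;> refine Fin.cases ?_ (fun j => ?_) j <;>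
    simp [blk, ix, fromBlocks]

end Pool.Agent.K7.H96.GMC
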