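import Pool.Agent.K7.H96.GMC.Rat

set_option autoImplicit false

/-!
The Schur change of variables.
-/

open MeasureTheory Set Filter Topology Matrix
open scoped ENNReal

namespace Pool.Agent.K7.H96.GMC

open Pool.Agent.R923.SE

variable {n : ℕ}

theorem swap4 {A B C D : Type*} [MeasureSpace A] [MeasureSpace B] [MeasureSpace C] [MeasureSpace D]
    [SigmaFinite (volume : Measure A)] [SigmaFinite (volume : Measure B)]
    [SigmaFinite (volume : Measure C)] [SigmaFinite (volume : Measure D)]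
    (T : A × B × C × D → ℝ≥0∞) (hT : Measurable T) :
    ∫⁻ a, ∫⁻ b, ∫⁻ c, ∫⁻ d, T (a, b, c, d) = ∫⁻ c, ∫⁻ d, ∫⁻ b, ∫⁻ a, T (a, b, c, d) := by
  have h1 : ∫⁻ a, ∫⁻ b, ∫⁻ c, ∫⁻ d, T (a, b, c, d) = ∫⁻ p : A × B, ∫⁻ q : C × D,
      T (p.1, p.2, q.1, q.2) := by
    have hm : Measurable fun p : A × B => ∫⁻ q : C × D, T (p.1, p.2, q.1, q.2) := by
      refine Measurable.lintegral_prod_right' (f := fun x : (A × B) × (C × D) =>
        T (x.1.1, x.1.2, x.2.1, x.2.2)) (hT.comp (by fun_prop))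
    rw [Measure.volume_eq_prod A B, lintegral_prod _ hm.aemeasurable]
    refine lintegral_congr fun a => lintegral_congr fun b => ?_
    have hc : Measurable fun q : C × D => T (a, b, q.1, q.2) := hT.comp (by fun_prop)
    rw [Measure.volume_eq_prod C D]
    exact (lintegral_prod _ hc.aemeasurable).symm
  have h2 : ∫⁻ c, ∫⁻ d, ∫⁻ b, ∫⁻ a, T (a, b, c, d) = ∫⁻ q : C × D, ∫⁻ p : A × B,
      T (p.1, p.2, q.1, q.2) := by
    have hm : Measurable fun q : C × D => ∫⁻ p : A × B, T (p.1, p.2, q.1, q.2) := by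
      refine Measurable.lintegral_prod_left' (f := fun x : (A × B) × (C × D) =>
        T (x.1.1, x.1.2, x.2.1, x.2.2)) (hT.comp (by fun_prop))
    rw [Measure.volume_eq_prod C D, lintegral_prod _ hm.aemeasurable]
    refine lintegral_congr fun c => lintegral_congr fun d => ?_
    have hc : Measurable fun p : A × B => T (p.1, p.2, c, d) := hT.comp (by fun_prop)
    rw [Measure.volume_eq_prod A B]
    exact (lintegral_prod_symm _ hc.aemeasurable).symm
  rw [h1, h2]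
  refine lintegral_lintegral_swap ?_
  exact (hT.comp (by fun_prop)).aemeasurable

/-- the Schur parametrisation -/
def Ph (z : ℂ) (w c : Fin n → ℂ) (X : Mt n n) : Mt (n + 1) (n + 1) :=
  blk (z - c ⬝ᵥ w) c (rs (z - c ⬝ᵥ w) X *ᵥ w) (fun i j => X i j + w i * c j)

theorem continuous_Ph : Continuous fun p : ℂ × (Fin n → ℂ) × (Fin n → ℂ) × Mt n n =>
    Ph p.1 p.2.1 p.2.2.1 p.2.2.2 := by
  have h1 : Continuous fun p : ℂ × (Fin n → ℂ) × (Fin n → ℂ) × Mt n n =>
      p.1 - p.2.2.1 ⬝ᵥ p.2.1 := by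
    simp only [dotProduct]; fun_prop
  have h2 : Continuous fun p : ℂ × (Fin n → ℂ) × (Fin n → ℂ) × Mt n n =>
      rs (p.1 - p.2.2.1 ⬝ᵥ p.2.1) p.2.2.2 *ᵥ p.2.1 :=
    Continuous.matrix_mulVec (continuous_rs.comp (h1.prodMk (by fun_prop))) (by fun_prop)
  exact continuous_blk.comp (h1.prodMk ((by fun_prop : Continuous fun p : ℂ × (Fin n → ℂ) ×
    (Fin n → ℂ) × Mt n n => p.2.2.1).prodMk (h2.prodMk (by fun_prop))))

theorem rs_shift (z : ℂ) (w c : Fin n → ℂ) (M : Mt n n) (hz : (rs z M).det ≠ 0) :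
    (rs z M).det * (1 + c ⬝ᵥ ((rs z M)⁻¹ *ᵥ w)) = (rs z (fun i j => M i j - w i * c j)).det := by
  have e : rs z (fun i j => M i j - w i * c j) =
      rs z M + replicateCol Unit w * replicateRow Unit c := by
    ext i j
    rw [rs_apply, Matrix.add_apply, rs_apply]
    simp only [Matrix.mul_apply, Matrix.replicateCol_apply, Matrix.replicateRow_apply,
      Finset.univ_unique, Finset.sum_const, Finset.card_singleton, one_smul]
    ring
  rw [e, Matrix.det_add_replicateCol_mul_replicateRow (isUnit_iff_ne_zero.2 hz)]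
  congr 1
  rw [Matrix.det_unique, Matrix.add_apply, Matrix.one_apply_eq, Matrix.mul_assoc]
  rfl

/-- the kernel before the shift -/
noncomputable def Tk (F : Mt (n + 1) (n + 1) → ℝ≥0∞) (M : Mt n n) (c : Fin n → ℂ) (z : ℂ)
    (w : Fin n → ℂ) : ℝ≥0∞ :=
  ENNReal.ofReal (‖(rs z (fun i j => M i j - w i * c j)).det‖ ^ 2) *
    F (blk (z - c ⬝ᵥ w) c (rs z M *ᵥ w) M)

theorem measurable_blk3 (F : Mt (n + 1) (n + 1) → ℝ≥0∞) (hF : Measurable F) (c : Fin n → ℂ)
    (M : Mt n n) : Measurable fun p : ℂ × (Fin n → ℂ) => F (blk p.1 c p.2 M) :=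
  hF.comp (continuous_blk.comp (by fun_prop : Continuous fun p : ℂ × (Fin n → ℂ) =>
      (p.1, c, p.2, M))).measurable

theorem measurable_inv_entry (M : Mt n n) (i j : Fin n) :
    Measurable fun p : (Fin n → ℂ) × ℂ => (rs p.2 M)⁻¹ i j := by
  have hdm : Measurable fun p : (Fin n → ℂ) × ℂ => (rs p.2 M).det :=
    (Continuous.matrix_det (continuous_rs.comp
      (by fun_prop : Continuous fun p : (Fin n → ℂ) × ℂ => (p.2, M)))).measurable
  have ham : Measurable fun p : (Fin n → ℂ) × ℂ => (rs p.2 M).adjugate i j :=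
    (Continuous.matrix_elem (Continuous.matrix_adjugate (continuous_rs.comp
      (by fun_prop : Continuous fun p : (Fin n → ℂ) × ℂ => (p.2, M)))) i j).measurable
  simp only [inv_eq_adj, Matrix.smul_apply, smul_eq_mul]
  exact hdm.inv.mul ham

theorem measurable_Rr (c : Fin n → ℂ) (M : Mt n n) :
    Measurable fun p : (Fin n → ℂ) × ℂ => Rr c p.1 M p.2 := by
  simp only [Rr, dotProduct, Matrix.mulVec]
  refine measurable_snd.sub (Finset.measurable_sum _ fun i _ => measurable_const.mul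
    (Finset.measurable_sum _ fun j _ => (measurable_inv_entry M i j).mul ?_))
  exact (measurable_pi_apply j).comp measurable_fst

theorem measurable_Rd (c : Fin n → ℂ) (M : Mt n n) :
    Measurable fun p : (Fin n → ℂ) × ℂ => Rd c p.1 M p.2 := by
  simp only [Rd, dotProduct, Matrix.mulVec]
  refine measurable_const.add (Finset.measurable_sum _ fun i _ => measurable_const.mul
    (Finset.measurable_sum _ fun j _ => (measurable_inv_entry M i j).mul
    (Finset.measurable_sum _ fun k _ => (measurable_inv_entry M j k).mul ?_)))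
  exact (measurable_pi_apply k).comp measurable_fst

/-- the kernel before the linear substitution -/
noncomputable def Uk (F : Mt (n + 1) (n + 1) → ℝ≥0∞) (M : Mt n n) (c β : Fin n → ℂ) (z : ℂ) :
    ℝ≥0∞ := ENNReal.ofReal (‖Rd c β M z‖ ^ 2) * F (blk (Rr c β M z) c β M)

theorem measurable_Uk (F : Mt (n + 1) (n + 1) → ℝ≥0∞) (hF : Measurable F) (c : Fin n → ℂ)
    (M : Mt n n) : Measurable fun p : (Fin n → ℂ) × ℂ => Uk F M c p.1 p.2 := by
  refine (ENNReal.measurable_ofReal.comp ((measurable_Rd c M).norm.pow_const 2)).mul ?_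
  exact (measurable_blk3 F hF c M).comp ((measurable_Rr c M).prodMk measurable_fst)

theorem measurable_Uk1 (F : Mt (n + 1) (n + 1) → ℝ≥0∞) (hF : Measurable F) (c : Fin n → ℂ)
    (M : Mt n n) (z : ℂ) : Measurable fun β : Fin n → ℂ => Uk F M c β z := by
  have hm1 := measurable_Uk F hF c M
  generalize Uk F M c = V at hm1 ⊢
  exact hm1.comp (by fun_prop : Measurable fun β : Fin n → ℂ => (β, z))

theorem step1a (F : Mt (n + 1) (n + 1) → ℝ≥0∞) (hF : Measurable F) {M : Mt n n} {c β : Fin n → ℂ}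
    (hβ : ∀ z, (rs z M).det = 0 → c ⬝ᵥ ((rs z M).adjugate *ᵥ β) ≠ 0) :
    ((n + 1 : ℕ) : ℝ≥0∞) * ∫⁻ α : ℂ, F (blk α c β M) = ∫⁻ z : ℂ, Uk F M c β z :=
  (area_R c β M hβ (fun α => F (blk α c β M))
      ((measurable_blk3 F hF c M).comp (measurable_id.prodMk measurable_const))).symm

theorem step1b (F : Mt (n + 1) (n + 1) → ℝ≥0∞) (hF : Measurable F) {M : Mt n n} (c : Fin n → ℂ)
    (z : ℂ) (hz : (rs z M).det ≠ 0) :
    ∫⁻ β : Fin n → ℂ, Uk F M c β z = ∫⁻ w : Fin n → ℂ, Tk F M c z w := by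
  have hm2 := measurable_Uk1 F hF c M z
  rw [lint_mulVec (rs z M) hz _ hm2, ← lintegral_const_mul' _ _ ENNReal.ofReal_ne_top]
  refine lintegral_congr fun w => ?_
  have hI : (rs z M)⁻¹ *ᵥ (rs z M *ᵥ w) = w := by
    rw [Matrix.mulVec_mulVec, Matrix.nonsing_inv_mul _ (isUnit_iff_ne_zero.2 hz), Matrix.one_mulVec]
  have e1 : Rd c (rs z M *ᵥ w) M z = 1 + c ⬝ᵥ ((rs z M)⁻¹ *ᵥ w) := by rw [Rd, hI]
  have e2 : Rr c (rs z M *ᵥ w) M z = z - c ⬝ᵥ w := by rw [Rr, hI]
  rw [Uk, Tk, e1, e2, ← rs_shift z w c M hz, norm_mul, mul_pow,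
    ENNReal.ofReal_mul (by positivity), mul_assoc]

theorem step1 (F : Mt (n + 1) (n + 1) → ℝ≥0∞) (hF : Measurable F) {M : Mt n n} {c : Fin n → ℂ}
    (hc : ∀ z, (rs z M).det = 0 → c ᵥ* (rs z M).adjugate ≠ 0) :
    ((n + 1 : ℕ) : ℝ≥0∞) * ∫⁻ β : Fin n → ℂ, ∫⁻ α : ℂ, F (blk α c β M) =
      ∫⁻ z : ℂ, ∫⁻ w : Fin n → ℂ, Tk F M c z w := by
  calc ((n + 1 : ℕ) : ℝ≥0∞) * ∫⁻ β : Fin n → ℂ, ∫⁻ α : ℂ, F (blk α c β M)
      = ∫⁻ β : Fin n → ℂ, ((n + 1 : ℕ) : ℝ≥0∞) * ∫⁻ α : ℂ, F (blk α c β M) :=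
        (lintegral_const_mul' _ _ (ENNReal.natCast_ne_top _)).symm
    _ = ∫⁻ β : Fin n → ℂ, ∫⁻ z : ℂ, Uk F M c β z := by
        refine lintegral_congr_ae ?_
        filter_upwards [ae_b hc] with β hβ
        exact step1a F hF hβ
    _ = ∫⁻ z : ℂ, ∫⁻ β : Fin n → ℂ, Uk F M c β z := by
        have hm : Measurable (Function.uncurry fun (β : Fin n → ℂ) (z : ℂ) => Uk F M c β z) :=
          measurable_Uk F hF c M
        exact lintegral_lintegral_swap hm.aemeasurable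
    _ = ∫⁻ z : ℂ, ∫⁻ w : Fin n → ℂ, Tk F M c z w := by
        have h2 : ∀ᵐ z : ℂ, (rs z M).det ≠ 0 := by
          rw [ae_iff]
          simp only [not_not]
          exact (finite_roots M).measure_zero _
        refine lintegral_congr_ae ?_
        filter_upwards [h2] with z hz
        exact step1b F hF c z hz

theorem measurable_Tk (F : Mt (n + 1) (n + 1) → ℝ≥0∞) (hF : Measurable F) :
    Measurable fun p : Mt n n × (Fin n → ℂ) × ℂ × (Fin n → ℂ) => Tk F p.1 p.2.1 p.2.2.1 p.2.2.2 := by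
  have h1 : Continuous fun p : Mt n n × (Fin n → ℂ) × ℂ × (Fin n → ℂ) =>
      rs p.2.2.1 (fun i j => p.1 i j - p.2.2.2 i * p.2.1 j) :=
    continuous_rs.comp (by fun_prop : Continuous fun p : Mt n n × (Fin n → ℂ) × ℂ ×
      (Fin n → ℂ) => (p.2.2.1, (fun i j => p.1 i j - p.2.2.2 i * p.2.1 j : Mt n n)))
  have h3 : Continuous fun p : Mt n n × (Fin n → ℂ) × ℂ × (Fin n → ℂ) =>
      p.2.2.1 - p.2.1 ⬝ᵥ p.2.2.2 := by
    simp only [dotProduct]; fun_prop
  have h4 : Continuous fun p : Mt n n × (Fin n → ℂ) × ℂ × (Fin n → ℂ) =>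
      rs p.2.2.1 p.1 *ᵥ p.2.2.2 :=
    Continuous.matrix_mulVec (continuous_rs.comp (by fun_prop : Continuous fun p : Mt n n ×
      (Fin n → ℂ) × ℂ × (Fin n → ℂ) => (p.2.2.1, p.1))) (by fun_prop)
  have h2 : Continuous fun p : Mt n n × (Fin n → ℂ) × ℂ × (Fin n → ℂ) =>
      blk (p.2.2.1 - p.2.1 ⬝ᵥ p.2.2.2) p.2.1 (rs p.2.2.1 p.1 *ᵥ p.2.2.2) p.1 :=
    continuous_blk.comp (h3.prodMk ((by fun_prop : Continuous fun p : Mt n n × (Fin n → ℂ) × ℂ ×
      (Fin n → ℂ) => p.2.1).prodMk (h4.prodMk (by fun_prop))))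
  exact (ENNReal.measurable_ofReal.comp (h1.matrix_det.norm.pow 2).measurable).mul
    (hF.comp h2.measurable)

theorem schur (F : Mt (n + 1) (n + 1) → ℝ≥0∞) (hF : Measurable F) :
    ((n + 1 : ℕ) : ℝ≥0∞) * ∫⁻ X, F X = ∫⁻ z : ℂ, ∫⁻ w : Fin n → ℂ, ∫⁻ c : Fin n → ℂ,
      ∫⁻ X : Mt n n, ENNReal.ofReal (‖(rs z X).det‖ ^ 2) * F (Ph z w c X) := by
  have h0 : ∫⁻ X, F X = ∫⁻ M : Mt n n, ∫⁻ c : Fin n → ℂ, ∫⁻ β : Fin n → ℂ, ∫⁻ α : ℂ,
      F (blk α c β M) := by
    rw [lint_blk F hF]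
    refine lintegral_congr fun M => ?_
    refine lintegral_lintegral_swap ?_
    have : Measurable fun p : ((Fin n → ℂ) × (Fin n → ℂ)) × ℂ => F (blk p.2 p.1.2 p.1.1 M) :=
      hF.comp (continuous_blk.comp (by fun_prop : Continuous fun p : ((Fin n → ℂ) ×
        (Fin n → ℂ)) × ℂ => (p.2, p.1.2, p.1.1, M))).measurable
    exact this.lintegral_prod_right'.aemeasurable
  rw [h0, ← lintegral_const_mul' _ _ (ENNReal.natCast_ne_top _)]
  have h1 : ∫⁻ M : Mt n n, ((n + 1 : ℕ) : ℝ≥0∞) * ∫⁻ c : Fin n → ℂ, ∫⁻ β : Fin n → ℂ, ∫⁻ α : ℂ,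
      F (blk α c β M) = ∫⁻ M : Mt n n, ∫⁻ c : Fin n → ℂ, ∫⁻ z : ℂ, ∫⁻ w : Fin n → ℂ,
        Tk F M c z w := by
    refine lintegral_congr_ae ?_
    filter_upwards [ae_good n] with M hM
    rw [← lintegral_const_mul' _ _ (ENNReal.natCast_ne_top _)]
    refine lintegral_congr_ae ?_
    filter_upwards [ae_c hM] with c hc
    exact step1 F hF hc
  rw [h1]
  have h2 := swap4 (fun p : Mt n n × (Fin n → ℂ) × ℂ × (Fin n → ℂ) =>
    Tk F p.1 p.2.1 p.2.2.1 p.2.2.2) (measurable_Tk F hF)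
  rw [h2]
  refine lintegral_congr fun z => lintegral_congr fun w => lintegral_congr fun c => ?_
  rw [← lintegral_add_right_eq_self (μ := (volume : Measure (Mt n n))) _
    (fun i j => w i * c j : Mt n n)]
  refine lintegral_congr fun X => ?_
  simp only [Tk, Ph, Pi.add_apply, add_sub_cancel_right]
  have e : rs z (X + fun i j => w i * c j) *ᵥ w = rs (z - c ⬝ᵥ w) X *ᵥ w := by
    funext i
    simp only [Matrix.mulVec, dotProduct, rs_apply, Pi.add_apply, sub_mul, add_mul,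
      Finset.sum_sub_distrib, Finset.sum_add_distrib, ite_mul, zero_mul, Finset.sum_ite_eq,
      Finset.mem_univ, if_true, Finset.sum_mul]
    have : ∑ x, w i * c x * w x = ∑ x, c x * w x * w i :=
      Finset.sum_congr rfl fun x _ => by ring
    rw [this]
    ring
  rw [e]
  rfl

end Pool.Agent.K7.H96.GMC
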