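import Pool.Agent.K7.H96.GMC.Beta
import Pool.Agent.K7.H96.GMC.Schur

set_option autoImplicit false

/-!
Deflation of an eigenvalue: `s_DEFL`.
-/

open MeasureTheory Set Filter Topology Matrix
open scoped ENNReal

namespace Pool.Agent.K7.H96.GMC

open Pool.Agent.R923.SE Pool.Agent.K7.H95.GMC

variable {n : ℕ}

theorem Ph_eq (z : ℂ) (w c : Fin n → ℂ) (X : Mt n n) :
    Matrix.of (Ph z w c X) = bk (z - c ⬝ᵥ w) c ((z - c ⬝ᵥ w) • w - Matrix.of X *ᵥ w)
      (Matrix.of X + vecMulVec w c) := by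
  have h : rs (z - c ⬝ᵥ w) X *ᵥ w = (z - c ⬝ᵥ w) • w - Matrix.of X *ᵥ w := by
    rw [rs, Matrix.sub_mulVec]
    congr 1
    simp [Matrix.scalar_apply, ← Matrix.smul_one_eq_diagonal, Matrix.smul_mulVec]
  unfold Ph bk
  rw [h]
  rfl

theorem Ph_mul (z : ℂ) (w c : Fin n → ℂ) (X : Matrix (Fin n) (Fin n) ℂ) :
    bk (z - c ⬝ᵥ w) c ((z - c ⬝ᵥ w) • w - X *ᵥ w) (X + vecMulVec w c) * bk 1 0 w 1 =
      bk 1 0 w 1 * bk z c 0 X := by
  rw [bk_mul, bk_mul]
  congr 1
  · simp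
  · simp
  · simp only [one_smul, Matrix.add_mulVec, Matrix.one_mulVec, add_zero, Matrix.vecMulVec_mulVec]
    funext i
    simp only [Pi.add_apply, Pi.sub_apply, Pi.smul_apply, smul_eq_mul, MulOpposite.smul_eq_mul_unop,
      MulOpposite.unop_op]
    ring
  · rw [Matrix.mul_one, Matrix.one_mul]
    ext i j
    simp [vecMulVec_apply]
    ring

theorem charpoly_of_conj {m : ℕ} {A B L : Matrix (Fin m) (Fin m) ℂ} (h : A * L = L * B)
    (hL : L.det ≠ 0) : A.charpoly = B.charpoly := by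
  refine Polynomial.funext fun t => ?_
  rw [Matrix.eval_charpoly, Matrix.eval_charpoly]
  have h1 : (Matrix.scalar (Fin m) t - A) * L = L * (Matrix.scalar (Fin m) t - B) := by
    rw [Matrix.sub_mul, Matrix.mul_sub, h]
    congr 1
    simp [Matrix.scalar_apply, ← Matrix.smul_one_eq_diagonal]
  have h2 := congrArg Matrix.det h1
  rw [Matrix.det_mul, Matrix.det_mul, mul_comm L.det] at h2
  exact mul_right_cancel₀ hL h2

theorem charpoly_tri (z : ℂ) (c : Fin n → ℂ) (X : Mt n n) :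
    (Matrix.of (blk z c 0 X)).charpoly = (Polynomial.X - Polynomial.C z) * (Matrix.of X).charpoly := by
  refine Polynomial.funext fun t => ?_
  rw [eval_cp, Polynomial.eval_mul, eval_cp, eval_blk]
  simp

theorem charpoly_Ph (z : ℂ) (w c : Fin n → ℂ) (X : Mt n n) :
    (Matrix.of (Ph z w c X)).charpoly =
      (Polynomial.X - Polynomial.C z) * (Matrix.of X).charpoly := by
  rw [← charpoly_tri z c X, Ph_eq]
  refine charpoly_of_conj (Ph_mul z w c (Matrix.of X)) ?_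
  rw [bk_det]
  simp

/-- the class function part of the integrand -/
noncomputable def kf (H : ℂ × Mt n n → ℝ≥0∞) (z : ℂ) (X : Mt n n) : ℝ≥0∞ :=
  ENNReal.ofReal (‖(rs z X).det‖ ^ 2) * H (z, X)

theorem sw_det_ne (w : Fin n → ℂ) : (Sw w).det ≠ 0 := by
  rw [Sw_det]
  have := (rho_pos w).ne'
  exact inv_ne_zero (by exact_mod_cast this)

theorem kf_conj {G : Mt (n + 1) (n + 1) → ℝ≥0∞} {H : ℂ × Mt n n → ℝ≥0∞}
    (hGH : ∀ (z : ℂ) (X' : Mt n n) (X : Mt (n + 1) (n + 1)), (Matrix.of X).charpoly =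
    (Polynomial.X - Polynomial.C z) * (Matrix.of X').charpoly → G X = H (z, X'))
    (z : ℂ) {S T : Matrix (Fin n) (Fin n) ℂ} (hTS : T * S = 1) (X : Mt n n) :
    kf H z (S * Matrix.of X * T) = kf H z X := by
  have hS : S.det ≠ 0 := by
    intro h0
    have := congrArg Matrix.det hTS
    rw [Matrix.det_mul, h0, mul_zero, Matrix.det_one] at this
    exact zero_ne_one this
  have hcp : (Matrix.of (S * Matrix.of X * T : Matrix (Fin n) (Fin n) ℂ)).charpoly =
      (Matrix.of X).charpoly := by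
    refine charpoly_of_conj (L := S) ?_ hS
    change (S * Matrix.of X * T) * S = S * Matrix.of X
    rw [Matrix.mul_assoc, hTS, Matrix.mul_one]
  unfold kf
  have e1 : (rs z (S * Matrix.of X * T : Matrix (Fin n) (Fin n) ℂ)).det = (rs z X).det := by
    rw [← eval_cp z X, ← hcp]
    exact (eval_cp z _).symm
  have e2 : H (z, (S * Matrix.of X * T : Matrix (Fin n) (Fin n) ℂ)) = H (z, X) := by
    rw [← hGH z X (blk z 0 0 X) (charpoly_tri z 0 X)]
    refine (hGH z _ (blk z 0 0 X) ?_).symm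
    rw [charpoly_tri]
    exact congrArg _ hcp.symm
  rw [e1, e2]

theorem lint_affine (A : Matrix (Fin n) (Fin n) ℂ) (hA : A.det ≠ 0) (k : Fin n → ℂ)
    (f : (Fin n → ℂ) → ℝ≥0∞) (hf : Measurable f) :
    ∫⁻ c : Fin n → ℂ, f (c ᵥ* A + k) = ENNReal.ofReal ((‖A.det‖ ^ 2)⁻¹) * ∫⁻ v, f v := by
  have h1 := lint_vecMul A hA (fun v => f (v + k)) (hf.comp (measurable_add_const k))
  rw [lintegral_add_right_eq_self (μ := (volume : Measure (Fin n → ℂ))) f k] at h1
  rw [h1, ← mul_assoc, ← ENNReal.ofReal_mul (by positivity), inv_mul_cancel₀ (by positivity)]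
  simp

theorem lint_c (z : ℂ) (w : Fin n → ℂ) (X : Matrix (Fin n) (Fin n) ℂ) {a : ℝ} (ha : (n : ℝ) < a) :
    ∫⁻ c : Fin n → ℂ, ENNReal.ofReal
        ((dd (bk z (cw z w c X) 0 (Sw w * X * (Sw w)⁻¹))).re ^ (-a)) =
      ENNReal.ofReal (((1 + vs w) ^ (-((n : ℝ) + 1)))) *
      (ENNReal.ofReal ((1 + ‖z‖ ^ 2) ^ (-a + n) * (Real.pi ^ n * (Real.Gamma (a - n) / Real.Gamma a))) *
        ENNReal.ofReal ((dd (Sw w * X * (Sw w)⁻¹)).re ^ (-a + 1))) := by
  set Y := Sw w * X * (Sw w)⁻¹ with hY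
  obtain ⟨C, hC0, hC⟩ := exists_chol Y
  have hdC : 0 < ‖C.det‖ ^ 2 := by positivity
  have hb : 0 < 1 + ‖z‖ ^ 2 := by positivity
  have hρ := rho_pos w
  set A : Matrix (Fin n) (Fin n) ℂ := ((rho w : ℝ) : ℂ) • ((Sw w)⁻¹ * C⁻¹) with hA
  set k : Fin n → ℂ := (((rho w : ℝ) : ℂ)⁻¹ • (star w ᵥ* (X - z • 1))) ᵥ* ((Sw w)⁻¹ * C⁻¹) with hk
  have hcw : ∀ c, cw z w c X ᵥ* C⁻¹ = c ᵥ* A + k := by
    intro c
    rw [cw, Matrix.vecMul_vecMul, Matrix.add_vecMul, hA, hk, Matrix.smul_vecMul, Matrix.vecMul_smul]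
  have hdetA : ‖A.det‖ ^ 2 = (1 + vs w) ^ ((n : ℝ) + 1) / ‖C.det‖ ^ 2 := by
    rw [hA, Matrix.det_smul, Fintype.card_fin, Matrix.det_mul, Matrix.det_nonsing_inv,
      Matrix.det_nonsing_inv, Sw_det, Ring.inverse_eq_inv', inv_inv]
    rw [norm_mul, norm_mul, norm_pow, norm_inv, Complex.norm_real, Real.norm_of_nonneg hρ.le,
      ← rho_sq]
    have e : (rho w ^ 2) ^ ((n : ℝ) + 1) = (rho w ^ (n + 1)) ^ 2 := by
      rw [show ((n : ℝ) + 1) = ((n + 1 : ℕ) : ℝ) by push_cast; ring, Real.rpow_natCast]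
      ring
    rw [e]
    field_simp
    ring
  have hA0 : A.det ≠ 0 := by
    intro h0
    rw [h0] at hdetA
    have h1 : 0 < (1 + vs w) ^ ((n : ℝ) + 1) / ‖C.det‖ ^ 2 :=
      div_pos (Real.rpow_pos_of_pos (by linarith [vs_nonneg w]) _) hdC
    rw [← hdetA] at h1
    simp at h1
  have h1 : ∀ c : Fin n → ℂ, ENNReal.ofReal ((dd (bk z (cw z w c X) 0 Y)).re ^ (-a)) =
      ENNReal.ofReal ((‖C.det‖ ^ 2) ^ (-a)) *
        ENNReal.ofReal ((1 + ‖z‖ ^ 2 + vs (c ᵥ* A + k)) ^ (-a)) := by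
    intro c
    have hv := vs_nonneg (c ᵥ* A + k)
    rw [dd_blk z _ hC0 hC, Complex.ofReal_re, hcw, ← ENNReal.ofReal_mul (by positivity),
      Real.mul_rpow hdC.le (by linarith)]
  have hm : Measurable fun v : Fin n → ℂ => ENNReal.ofReal ((1 + ‖z‖ ^ 2 + vs v) ^ (-a)) :=
    ENNReal.measurable_ofReal.comp ((measurable_const.add continuous_vs.measurable).pow_const _)
  simp_rw [h1]
  rw [lintegral_const_mul' _ _ ENNReal.ofReal_ne_top, lint_affine A hA0 k _ hm, lint_beta n ha hb,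
    hdetA, dd_chol hC, Complex.ofReal_re, inv_div]
  have hvw : 0 < 1 + vs w := by linarith [vs_nonneg w]
  have hG : 0 < Real.Gamma (a - n) := Real.Gamma_pos_of_pos (by linarith)
  have hG2 : 0 < Real.Gamma a :=
    Real.Gamma_pos_of_pos (lt_of_le_of_lt (Nat.cast_nonneg n) ha)
  rw [← ENNReal.ofReal_mul (by positivity), ← ENNReal.ofReal_mul (by positivity),
    ← ENNReal.ofReal_mul (by positivity), ← ENNReal.ofReal_mul (by positivity)]
  congr 1
  rw [Real.rpow_neg hvw.le, Real.rpow_add hdC, Real.rpow_one]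
  field_simp

theorem measurable_dd {m : ℕ} : Measurable fun X : Mt m m => (dd (Matrix.of X)).re := by
  refine (Complex.continuous_re.comp ?_).measurable
  unfold dd
  refine Continuous.matrix_det ?_
  have h : Continuous fun X : Mt m m => (Matrix.of X : Matrix (Fin m) (Fin m) ℂ) := continuous_id
  exact continuous_const.add (h.matrix_conjTranspose.matrix_mul h)

theorem s_DEFL : S_DEFL := by
  intro n
  set κ : ℝ≥0∞ := ∫⁻ w : Fin n → ℂ, ENNReal.ofReal ((1 + vs w) ^ (-((n : ℝ) + 1))) with hκ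
  have hκv : κ = ENNReal.ofReal (1 ^ (-((n : ℝ) + 1) + n) *
      (Real.pi ^ n * (Real.Gamma ((n : ℝ) + 1 - n) / Real.Gamma ((n : ℝ) + 1)))) :=
    lint_beta n (by linarith) one_pos
  have hκ0 : κ ≠ 0 := by
    rw [hκv]
    have h1 : 0 < Real.Gamma ((n : ℝ) + 1 - n) := Real.Gamma_pos_of_pos (by linarith)
    have h2 : 0 < Real.Gamma ((n : ℝ) + 1) := Real.Gamma_pos_of_pos (by positivity)
    have : 0 < (1 : ℝ) ^ (-((n : ℝ) + 1) + n) *
      (Real.pi ^ n * (Real.Gamma ((n : ℝ) + 1 - n) / Real.Gamma ((n : ℝ) + 1))) := by positivity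
    simpa using this
  have hκt : κ ≠ ∞ := by rw [hκv]; exact ENNReal.ofReal_ne_top
  have hn0 : ((n + 1 : ℕ) : ℝ≥0∞) ≠ 0 := by exact_mod_cast Nat.succ_ne_zero n
  have hnt : ((n + 1 : ℕ) : ℝ≥0∞) ≠ ∞ := ENNReal.natCast_ne_top _
  have hp0 : ENNReal.ofReal (Real.pi ^ n) ≠ 0 := by
    have : 0 < Real.pi ^ n := by positivity
    simpa using this
  refine ⟨((n + 1 : ℕ) : ℝ≥0∞)⁻¹ * (κ * ENNReal.ofReal (Real.pi ^ n)), ?_, ?_, ?_⟩
  · exact mul_ne_zero (ENNReal.inv_ne_zero.2 hnt) (mul_ne_zero hκ0 hp0)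
  · exact ENNReal.mul_ne_top (ENNReal.inv_ne_top.2 hn0) (ENNReal.mul_ne_top hκt ENNReal.ofReal_ne_top)
  intro a ha G hG hGc H hH hGH
  have hG' : 0 < Real.Gamma (a - n) := Real.Gamma_pos_of_pos (by linarith)
  have hG2 : 0 < Real.Gamma a :=
    Real.Gamma_pos_of_pos (lt_of_le_of_lt (Nat.cast_nonneg n) ha)
  set F : Mt (n + 1) (n + 1) → ℝ≥0∞ := fun X => G X *
    ENNReal.ofReal ((dd (Matrix.of X)).re ^ (-a)) with hF
  have hFm : Measurable F := hG.mul (ENNReal.measurable_ofReal.comp (measurable_dd.pow_const _))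
  have hs := schur F hFm
  -- the inner integrals
  set J : ℂ → ℝ≥0∞ := fun z => ∫⁻ X : Mt n n, kf H z X *
    ENNReal.ofReal ((dd (Matrix.of X)).re ^ (-a + 1)) with hJ
  have hin : ∀ (z : ℂ) (w : Fin n → ℂ), ∫⁻ c : Fin n → ℂ, ∫⁻ X : Mt n n,
      ENNReal.ofReal (‖(rs z X).det‖ ^ 2) * F (Ph z w c X) =
      ENNReal.ofReal (((1 + vs w) ^ (-((n : ℝ) + 1)))) *
      (ENNReal.ofReal ((1 + ‖z‖ ^ 2) ^ (-a + n) *
        (Real.pi ^ n * (Real.Gamma (a - n) / Real.Gamma a))) * J z) := by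
    intro z w
    have hm : Measurable (Function.uncurry fun (c : Fin n → ℂ) (X : Mt n n) =>
        ENNReal.ofReal (‖(rs z X).det‖ ^ 2) * F (Ph z w c X)) := by
      have h1 : Continuous fun p : (Fin n → ℂ) × Mt n n => rs z p.2 :=
        continuous_rs.comp (by fun_prop : Continuous fun p : (Fin n → ℂ) × Mt n n => (z, p.2))
      have h2 : Continuous fun p : (Fin n → ℂ) × Mt n n => Ph z w p.1 p.2 :=
        continuous_Ph.comp (by fun_prop : Continuous fun p : (Fin n → ℂ) × Mt n n =>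
          (z, w, p.1, p.2))
      exact (ENNReal.measurable_ofReal.comp (h1.matrix_det.norm.pow 2).measurable).mul
        (hFm.comp h2.measurable)
    rw [lintegral_lintegral_swap hm.aemeasurable]
    have hSu : IsUnit (Sw w).det := isUnit_iff_ne_zero.2 (sw_det_ne w)
    have e1 : ∀ X : Mt n n, ∫⁻ c : Fin n → ℂ, ENNReal.ofReal (‖(rs z X).det‖ ^ 2) * F (Ph z w c X) =
        (ENNReal.ofReal (((1 + vs w) ^ (-((n : ℝ) + 1)))) *
        ENNReal.ofReal ((1 + ‖z‖ ^ 2) ^ (-a + n) *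
        (Real.pi ^ n * (Real.Gamma (a - n) / Real.Gamma a)))) *
        (kf H z X * ENNReal.ofReal ((dd (Sw w * Matrix.of X * (Sw w)⁻¹)).re ^ (-a + 1))) := by
      intro X
      have e2 : ∀ c : Fin n → ℂ, ENNReal.ofReal (‖(rs z X).det‖ ^ 2) * F (Ph z w c X) =
          kf H z X * ENNReal.ofReal
          ((dd (bk z (cw z w c (Matrix.of X)) 0 (Sw w * Matrix.of X * (Sw w)⁻¹))).re ^ (-a)) := by
        intro c
        simp only [hF]
        rw [hGH z X (Ph z w c X) (charpoly_Ph z w c X), Ph_eq, dd_Ph, kf]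
        exact (mul_assoc _ _ _).symm
      simp_rw [e2]
      by_cases hk : kf H z X = 0
      · simp [hk]
      · have hmc : Measurable fun c : Fin n → ℂ => ENNReal.ofReal
            ((dd (bk z (cw z w c (Matrix.of X)) 0 (Sw w * Matrix.of X * (Sw w)⁻¹))).re ^ (-a)) := by
          have h2 : Continuous fun c : Fin n → ℂ => Ph z w c X :=
            continuous_Ph.comp (by fun_prop : Continuous fun c : (Fin n → ℂ) => (z, w, c, X))
          have h3 := (measurable_dd (m := n + 1)).comp h2.measurable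
          have h4 : (fun c : Fin n → ℂ => ENNReal.ofReal
            ((dd (bk z (cw z w c (Matrix.of X)) 0 (Sw w * Matrix.of X * (Sw w)⁻¹))).re ^ (-a))) =
            fun c => ENNReal.ofReal ((dd (Matrix.of (Ph z w c X))).re ^ (-a)) := by
            funext c
            rw [Ph_eq, dd_Ph]
          rw [h4]
          exact ENNReal.measurable_ofReal.comp (h3.pow_const _)
        rw [lintegral_const_mul _ hmc, lint_c z w (Matrix.of X) ha]
        ring
    simp_rw [e1]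
    have hmJ : Measurable fun X : Mt n n => kf H z X *
        ENNReal.ofReal ((dd (Matrix.of X)).re ^ (-a + 1)) := by
      have h1 : Continuous fun X : Mt n n => rs z X :=
        continuous_rs.comp (by fun_prop : Continuous fun X : Mt n n => (z, X))
      unfold kf
      exact ((ENNReal.measurable_ofReal.comp (h1.matrix_det.norm.pow 2).measurable).mul
        (hH.comp (by fun_prop : Measurable fun X : Mt n n => (z, X)))).mul
        (ENNReal.measurable_ofReal.comp (measurable_dd.pow_const _))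
    have e3 : ∫⁻ X : Mt n n, kf H z X *
        ENNReal.ofReal ((dd (Sw w * Matrix.of X * (Sw w)⁻¹)).re ^ (-a + 1)) = J z := by
      have h5 := lint_conj (Sw w) (Sw w)⁻¹ (Matrix.mul_nonsing_inv _ hSu) _ hmJ
      rw [hJ]
      refine Eq.trans ?_ h5.symm
      refine lintegral_congr fun X => ?_
      rw [kf_conj hGH z (Matrix.nonsing_inv_mul _ hSu)]
      rfl
    rw [lintegral_const_mul' _ _ (ENNReal.mul_ne_top ENNReal.ofReal_ne_top ENNReal.ofReal_ne_top),
      e3, mul_assoc]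
  have hs2 : ((n + 1 : ℕ) : ℝ≥0∞) * ∫⁻ X, F X = κ * (ENNReal.ofReal (Real.pi ^ n) *
      (ENNReal.ofReal (Real.Gamma (a - n) / Real.Gamma a) *
        ∫⁻ z : ℂ, ENNReal.ofReal ((1 + ‖z‖ ^ 2) ^ (-a + n)) * J z)) := by
    rw [hs]
    simp_rw [hin]
    have hmw : Measurable fun w : Fin n → ℂ => ENNReal.ofReal ((1 + vs w) ^ (-((n : ℝ) + 1))) :=
      ENNReal.measurable_ofReal.comp ((measurable_const.add continuous_vs.measurable).pow_const _)
    have e4 : ∀ z : ℂ, ∫⁻ w : Fin n → ℂ, ENNReal.ofReal (((1 + vs w) ^ (-((n : ℝ) + 1)))) *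
      (ENNReal.ofReal ((1 + ‖z‖ ^ 2) ^ (-a + n) *
        (Real.pi ^ n * (Real.Gamma (a - n) / Real.Gamma a))) * J z) =
        (κ * ENNReal.ofReal (Real.pi ^ n) * ENNReal.ofReal (Real.Gamma (a - n) / Real.Gamma a)) *
          (ENNReal.ofReal ((1 + ‖z‖ ^ 2) ^ (-a + n)) * J z) := by
      intro z
      rw [lintegral_mul_const _ hmw, ← hκ, ENNReal.ofReal_mul (by positivity),
        ENNReal.ofReal_mul (by positivity)]
      ring
    simp_rw [e4]
    rw [lintegral_const_mul' _ _ (ENNReal.mul_ne_top (ENNReal.mul_ne_top hκt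
      ENNReal.ofReal_ne_top) ENNReal.ofReal_ne_top)]
    ring
  have hs3 : ∫⁻ X, F X = ((n + 1 : ℕ) : ℝ≥0∞)⁻¹ * (((n + 1 : ℕ) : ℝ≥0∞) * ∫⁻ X, F X) := by
    rw [← mul_assoc, ENNReal.inv_mul_cancel hn0 hnt, one_mul]
  have hgoal : ∫⁻ X : Mt (n + 1) (n + 1), G X *
      ENNReal.ofReal ((Matrix.det (1 + (Matrix.of X).conjTranspose * Matrix.of X)).re ^ (-a)) =
      ∫⁻ X, F X := rfl
  rw [hgoal, hs3, hs2]
  have hJ2 : ∀ z : ℂ, J z = ∫⁻ X' : Mt n n, H (z, X') *
        ENNReal.ofReal (‖(Matrix.of X').charpoly.eval z‖ ^ 2) *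
        ENNReal.ofReal ((Matrix.det (1 + (Matrix.of X').conjTranspose * Matrix.of X')).re
          ^ (-a + 1)) := by
    intro z
    rw [hJ]
    refine lintegral_congr fun X => ?_
    rw [kf, eval_cp, mul_comm (ENNReal.ofReal _) (H _)]
    rfl
  simp_rw [hJ2]
  ring

end Pool.Agent.K7.H96.GMC
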