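import Pool.Agent.K7.H96.GMC.IndA

set_option autoImplicit false

/-!
`Y` is independent of the spherical ensemble: `s_IND`.
-/

open MeasureTheory Set Filter Topology Matrix
open scoped ENNReal

namespace Pool.Agent.K7.H96.GMC

open Pool.Agent.R923.SE Pool.Agent.K7.H95.GMC

theorem rt_eq : ∀ (n : ℕ) (a q : ℝ), rt n a q = ∏ i ∈ Finset.range n,
    (Real.Gamma (a + q - n + 1) * Real.Gamma (a - i) /
      (Real.Gamma (a + q - i) * Real.Gamma (a - n + 1))) := by
  intro n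
  induction n with
  | zero => intro a q; simp [rt]
  | succ n ih =>
    intro a q
    rw [rt, ih, Finset.prod_range_succ']
    push_cast
    rw [mul_comm]
    congr 1
    · refine Finset.prod_congr rfl fun i _ => ?_
      rw [show a - 1 + q - n + 1 = a + q - (n + 1) + 1 by ring,
        show a - 1 - (i : ℝ) = a - (i + 1) by ring,
        show a - 1 + q - (i : ℝ) = a + q - (i + 1) by ring,
        show a - 1 - (n : ℝ) + 1 = a - (n + 1) + 1 by ring]
    · rw [show a + q - ((n : ℝ) + 1) + 1 = a + q - n by ring,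
        show a - ((n : ℝ) + 1) + 1 = a - n by ring, sub_zero, sub_zero]
      ring

theorem const_eq (n : ℕ) (q : ℝ) (hq : -1 < q) :
    (∏ j ∈ Finset.range n, Real.Gamma (j + 1 + (n + q)) / Real.Gamma (j + 1)) * rt n (2 * n) q =
      (∏ j ∈ Finset.range n, Real.Gamma (j + 1 + (n + 0)) / Real.Gamma (j + 1)) *
        (Real.Gamma (n + 1 + q) / Real.Gamma (n + 1)) ^ n := by
  have hn : (0 : ℝ) ≤ n := Nat.cast_nonneg n
  rw [rt_eq, ← Finset.prod_range_reflect (fun i : ℕ => Real.Gamma (2 * (n : ℝ) + q - n + 1) *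
    Real.Gamma (2 * (n : ℝ) - i) / (Real.Gamma (2 * (n : ℝ) + q - i) *
    Real.Gamma (2 * (n : ℝ) - n + 1))) n, ← Finset.prod_mul_distrib]
  have h1 : (Real.Gamma (n + 1 + q) / Real.Gamma (n + 1)) ^ n =
      ∏ _j ∈ Finset.range n, (Real.Gamma (n + 1 + q) / Real.Gamma ((n : ℝ) + 1)) := by
    rw [Finset.prod_const, Finset.card_range]
  rw [h1, ← Finset.prod_mul_distrib]
  refine Finset.prod_congr rfl fun j hj => ?_
  have hj' : j < n := Finset.mem_range.1 hj
  have hc : ((n - 1 - j : ℕ) : ℝ) = (n : ℝ) - 1 - j := by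
    rw [Nat.cast_sub (by omega), Nat.cast_sub (by omega)]
    push_cast; ring
  have hj0 : (0 : ℝ) ≤ j := Nat.cast_nonneg j
  rw [hc, show 2 * (n : ℝ) - (n - 1 - j) = j + 1 + (n + 0) by ring,
    show 2 * (n : ℝ) + q - (n - 1 - j) = j + 1 + (n + q) by ring,
    show 2 * (n : ℝ) + q - n + 1 = n + 1 + q by ring,
    show 2 * (n : ℝ) - n + 1 = n + 1 by ring]
  have g1 := Real.Gamma_pos_of_pos (show 0 < (j : ℝ) + 1 + (n + q) by linarith)
  have g2 := Real.Gamma_pos_of_pos (show 0 < (j : ℝ) + 1 by linarith)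
  have g3 := Real.Gamma_pos_of_pos (show 0 < (n : ℝ) + 1 by linarith)
  field_simp

theorem s_IND : S_IND := by
  refine ⟨fun n => measurable_Y2, ?_⟩
  intro n q hq G hG hGc
  have hn : (0 : ℝ) ≤ n := Nat.cast_nonneg n
  have h1 := red q hq G hG
  have h2 := red 0 (by norm_num) G hG
  have h3 := K_rec n (2 * n) q (by linarith) (by linarith) G hG hGc
  have e1 : ∫⁻ x, G (Matrix.of x.1 * (Matrix.of x.2)⁻¹) * ENNReal.ofReal (Y2 x ^ q) ∂gg n =
      ∫⁻ x, PG q G x ∂gg n := rfl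
  have e2 : ∫⁻ x, G (Matrix.of x.1 * (Matrix.of x.2)⁻¹) ∂gg n = ∫⁻ x, PG 0 G x ∂gg n := by
    refine lintegral_congr fun x => ?_
    simp [PG]
  have e3 : ∫⁻ X : Mt n n, G X * ENNReal.ofReal (yy (Matrix.of X) ^ (0 : ℝ)) *
        ENNReal.ofReal ((dd (Matrix.of X)).re ^ (-(2 * (n : ℝ) + 0))) =
      ∫⁻ X : Mt n n, G X * ENNReal.ofReal ((dd (Matrix.of X)).re ^ (-(2 * (n : ℝ)))) := by
    refine lintegral_congr fun X => ?_
    simp
  rw [e1, e2, h1, h2, h3, e3, Ig_eq n (n + q) (by linarith), Ig_eq n (n + 0) (by linarith)]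
  have hc := const_eq n q hq
  have p1 : 0 ≤ ∏ j ∈ Finset.range n, Real.Gamma (j + 1 + ((n : ℝ) + q)) / Real.Gamma (j + 1) :=
    Finset.prod_nonneg fun j _ => by
      have hj0 : (0 : ℝ) ≤ j := Nat.cast_nonneg j
      have g1 := Real.Gamma_pos_of_pos (show 0 < (j : ℝ) + 1 + (n + q) by linarith)
      have g2 := Real.Gamma_pos_of_pos (show 0 < (j : ℝ) + 1 by linarith)
      positivity
  have p2 : 0 ≤ ∏ j ∈ Finset.range n, Real.Gamma (j + 1 + ((n : ℝ) + 0)) / Real.Gamma (j + 1) :=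
    Finset.prod_nonneg fun j _ => by
      have hj0 : (0 : ℝ) ≤ j := Nat.cast_nonneg j
      have g1 := Real.Gamma_pos_of_pos (show 0 < (j : ℝ) + 1 + (n + 0) by linarith)
      have g2 := Real.Gamma_pos_of_pos (show 0 < (j : ℝ) + 1 by linarith)
      positivity
  have hc2 := congrArg ENNReal.ofReal hc
  rw [ENNReal.ofReal_mul p1, ENNReal.ofReal_mul p2] at hc2
  calc _ = ENNReal.ofReal ((Real.pi ^ (n * n))⁻¹) *
        (ENNReal.ofReal (∏ j ∈ Finset.range n, Real.Gamma (j + 1 + ((n : ℝ) + q)) /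
          Real.Gamma (j + 1)) * ENNReal.ofReal (rt n (2 * n) q)) *
        ∫⁻ X : Mt n n, G X * ENNReal.ofReal ((dd (Matrix.of X)).re ^ (-(2 * (n : ℝ)))) := by ring
    _ = _ := by
      rw [hc2]
      ring

end Pool.Agent.K7.H96.GMC
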