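import Pool.Agent.K7.H96.GMC.KInd
import Pool.Agent.R923.SE.N

set_option autoImplicit false

/-!
Reduction of the spherical ensemble to the weight `det (1 + Xᴴ X) ^ (-a)`.
-/

open MeasureTheory Set Filter Topology Matrix
open scoped ENNReal

namespace Pool.Agent.K7.H96.GMC

open Pool.Agent.R923.SE Pool.Agent.K7.H95.GMC

variable {n : ℕ}

/-- moments of the determinant -/
noncomputable def Ig (n : ℕ) (s : ℝ) : ℝ≥0∞ := ∫⁻ B, ENNReal.ofReal ((‖dt B‖ ^ 2) ^ s) ∂gau n n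

theorem Ig_eq (n : ℕ) (s : ℝ) (hs : -1 < s) :
    Ig n s = ENNReal.ofReal (∏ j ∈ Finset.range n, Real.Gamma (j + 1 + s) / Real.Gamma (j + 1)) := by
  obtain ⟨hi, hv⟩ := s_N s_DEN s_UR n (s : ℂ) (by simpa using hs)
  have hnul := s_NUL s_UR n
  have h1 : ∀ᵐ A ∂gau n n, fp (s : ℂ) A = (((‖dt A‖ ^ 2) ^ s : ℝ) : ℂ) := by
    filter_upwards [hnul] with A hA
    have hpos : 0 < ‖dt A‖ := norm_pos_iff.2 hA
    unfold fp
    rw [show (2 : ℂ) * (s : ℂ) * ((Real.log ‖dt A‖ : ℝ) : ℂ) =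
      ((Real.log (‖dt A‖ ^ 2) * s : ℝ) : ℂ) by rw [Real.log_pow]; push_cast; ring]
    rw [← Complex.ofReal_exp, ← Real.rpow_def_of_pos (by positivity)]
  have h2 : Integrable (fun A : Mt n n => (‖dt A‖ ^ 2) ^ s) (gau n n) := by
    have h3 : Integrable (fun A : Mt n n => (((‖dt A‖ ^ 2) ^ s : ℝ) : ℂ)) (gau n n) :=
      hi.congr h1
    have h4 := h3.re
    simpa using h4
  have h5 : ∫ A : Mt n n, (‖dt A‖ ^ 2) ^ s ∂gau n n =
      ∏ j ∈ Finset.range n, Real.Gamma (j + 1 + s) / Real.Gamma (j + 1) := by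
    have h6 : ∫ A : Mt n n, (((‖dt A‖ ^ 2) ^ s : ℝ) : ℂ) ∂gau n n = NN n s := by
      rw [← hv]
      exact (integral_congr_ae h1).symm
    rw [integral_complex_ofReal] at h6
    have h7 : NN n (s : ℂ) =
        ((∏ j ∈ Finset.range n, Real.Gamma (j + 1 + s) / Real.Gamma (j + 1) : ℝ) : ℂ) := by
      unfold NN
      push_cast
      refine Finset.prod_congr rfl fun j _ => ?_
      rw [← Complex.Gamma_ofReal, ← Complex.Gamma_ofReal]
      push_cast
      rfl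
    rw [h7] at h6
    exact_mod_cast h6
  rw [← h5, ofReal_integral_eq_lintegral_ofReal h2]
  · rfl
  · exact Filter.Eventually.of_forall fun A => Real.rpow_nonneg (by positivity) _

theorem nsq_trace {m l : ℕ} (X : Matrix (Fin m) (Fin l) ℂ) : ((nsq X : ℝ) : ℂ) = Matrix.trace (Xᴴ * X) := by
  simp only [nsq, Matrix.trace, Matrix.diag, Matrix.mul_apply, Matrix.conjTranspose_apply]
  rw [Finset.sum_comm]
  push_cast
  refine Finset.sum_congr rfl fun i _ => Finset.sum_congr rfl fun j _ => ?_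
  exact (Complex.conj_mul' _).symm

theorem nsq_add {X C B : Matrix (Fin n) (Fin n) ℂ} (hC : 1 + Xᴴ * X = Cᴴ * C) :
    nsq B + nsq (X * B) = nsq (C * B) := by
  have h : ((nsq B + nsq (X * B) : ℝ) : ℂ) = ((nsq (C * B) : ℝ) : ℂ) := by
    push_cast
    rw [nsq_trace, nsq_trace, nsq_trace, ← Matrix.trace_add, Matrix.conjTranspose_mul,
      Matrix.conjTranspose_mul]
    congr 1
    rw [Matrix.mul_assoc Bᴴ Cᴴ, ← Matrix.mul_assoc Cᴴ, ← hC, Matrix.add_mul, Matrix.mul_add,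
      Matrix.one_mul]
    simp only [Matrix.mul_assoc]
  exact_mod_cast h

theorem measurable_dt : Measurable (dt : Mt n n → ℂ) := by
  have h : Continuous (dt : Mt n n → ℂ) := by
    unfold dt
    have h : Continuous fun X : Mt n n => (Matrix.of X : Matrix (Fin n) (Fin n) ℂ) := continuous_id
    exact h.matrix_det
  exact h.measurable

/-- the product of matrices -/
def mm (X B : Mt n n) : Mt n n := (Matrix.of X * Matrix.of B : Matrix (Fin n) (Fin n) ℂ)

theorem continuous_mm : Continuous fun p : Mt n n × Mt n n => mm p.1 p.2 := by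
  have c2 : Continuous fun p : Mt n n × Mt n n => (Matrix.of p.2 : Matrix (Fin n) (Fin n) ℂ) :=
    continuous_snd
  have c3 : Continuous fun p : Mt n n × Mt n n => (Matrix.of p.1 : Matrix (Fin n) (Fin n) ℂ) :=
    continuous_fst
  exact c3.matrix_mul c2

theorem dt_mm (C B : Mt n n) : dt (mm C B) = dt C * dt B := Matrix.det_mul _ _

theorem nsq_mm {X C B : Mt n n} (hC : 1 + (Matrix.of X)ᴴ * Matrix.of X = (Matrix.of C)ᴴ * Matrix.of C) :
    nsq B + nsq (mm X B) = nsq (mm C B) := nsq_add hC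

theorem lint_mm {C : Mt n n} (hC : dt C ≠ 0) (f : Mt n n → ℝ≥0∞) (hf : Measurable f) :
    ∫⁻ X, f X = ENNReal.ofReal ((‖dt C‖ ^ 2) ^ (n : ℝ)) * ∫⁻ X : Mt n n, f (mm C X) := by
  have e4 : ‖(Matrix.of C).det ^ n‖ ^ 2 = (‖dt C‖ ^ 2) ^ (n : ℝ) := by
    rw [Real.rpow_natCast, norm_pow, ← pow_mul, ← pow_mul, mul_comm n 2]
    rfl
  have h := lint_lm (Matrix.of C) hC f hf
  rw [e4] at h
  exact h

theorem lint_mm' {B : Mt n n} (hB : dt B ≠ 0) (f : Mt n n → ℝ≥0∞) (hf : Measurable f) :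
    ∫⁻ X, f X = ENNReal.ofReal ((‖dt B‖ ^ 2) ^ (n : ℝ)) * ∫⁻ X : Mt n n, f (mm X B) := by
  have e4 : ‖(Matrix.of B).det ^ n‖ ^ 2 = (‖dt B‖ ^ 2) ^ (n : ℝ) := by
    rw [Real.rpow_natCast, norm_pow, ← pow_mul, ← pow_mul, mul_comm n 2]
    rfl
  have h := lint_rm (Matrix.of B) hB f hf
  rw [e4] at h
  exact h

theorem measurable_rp (n : ℕ) (s : ℝ) : Measurable fun B : Mt n n =>
    ENNReal.ofReal ((‖dt B‖ ^ 2) ^ s) :=
  ENNReal.measurable_ofReal.comp ((measurable_dt.norm.pow_const 2).pow_const s)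

theorem inner (X : Mt n n) (s : ℝ) :
    ∫⁻ B : Mt n n, Base.dg B * (Base.dg (mm X B) * ENNReal.ofReal ((‖dt B‖ ^ 2) ^ s)) =
    ENNReal.ofReal ((dd (Matrix.of X)).re ^ (-((n : ℝ) + s))) *
      (ENNReal.ofReal ((Real.pi ^ (n * n))⁻¹) * Ig n s) := by
  obtain ⟨C, hC0, hC⟩ := exists_chol (Matrix.of X)
  obtain ⟨C, rfl⟩ : ∃ C' : Mt n n, Matrix.of C' = C := ⟨C, rfl⟩
  have hC0' : dt C ≠ 0 := hC0
  have hdC : 0 < ‖dt C‖ ^ 2 := by positivity
  have hddX : (dd (Matrix.of X)).re = ‖dt C‖ ^ 2 := by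
    rw [dd_chol hC, Complex.ofReal_re]; rfl
  have hpi : 0 < Real.pi ^ (n * n) := by positivity
  set f : Mt n n → ℝ≥0∞ := fun B => ENNReal.ofReal ((Real.pi ^ (n * n))⁻¹) * (Base.dg B *
    ENNReal.ofReal ((‖dt B‖ ^ 2) ^ s)) with hf
  have hfm : Measurable f :=
    measurable_const.mul (Base.measurable_dg.mul (measurable_rp n s))
  have h1 := lint_mm hC0' f hfm
  have h2 : ∫⁻ B : Mt n n, f B = ENNReal.ofReal ((Real.pi ^ (n * n))⁻¹) * Ig n s := by
    rw [hf, lintegral_const_mul' _ _ ENNReal.ofReal_ne_top, Ig, Base.gau_eq,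
      lintegral_withDensity_eq_lintegral_mul _ Base.measurable_dg (measurable_rp n s)]
    rfl
  have h3 : ∫⁻ B : Mt n n, f (mm C B) =
      ENNReal.ofReal ((‖dt C‖ ^ 2) ^ (-(n : ℝ))) * ∫⁻ B : Mt n n, f B := by
    rw [h1, ← mul_assoc, ← ENNReal.ofReal_mul (Real.rpow_nonneg hdC.le _), ← Real.rpow_add hdC]
    simp
  rw [← h2]
  have h4 : ENNReal.ofReal ((dd (Matrix.of X)).re ^ (-((n : ℝ) + s))) * ∫⁻ B : Mt n n, f B =
      ENNReal.ofReal ((‖dt C‖ ^ 2) ^ (-s)) * ∫⁻ B : Mt n n, f (mm C B) := by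
    rw [h3, ← mul_assoc, ← ENNReal.ofReal_mul (Real.rpow_nonneg hdC.le _),
      ← Real.rpow_add hdC, hddX]
    congr 3
    ring
  rw [h4, ← lintegral_const_mul' _ _ ENNReal.ofReal_ne_top]
  refine lintegral_congr fun B => ?_
  have h6 := nsq_mm (B := B) hC
  simp only [hf, Base.dg]
  rw [dt_mm, ← h6, norm_mul, mul_pow, Real.mul_rpow hdC.le (by positivity),
    ENNReal.ofReal_mul (Real.rpow_nonneg hdC.le _)]
  have h7 : Real.exp (-(nsq B + nsq (mm X B))) / Real.pi ^ (n * n) =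
      (Real.exp (-nsq B) / Real.pi ^ (n * n)) * Real.exp (-nsq (mm X B)) := by
    rw [neg_add, Real.exp_add]; ring
  have h8 : ENNReal.ofReal (Real.exp (-nsq (mm X B)) / Real.pi ^ (n * n)) =
      ENNReal.ofReal ((Real.pi ^ (n * n))⁻¹) * ENNReal.ofReal (Real.exp (-nsq (mm X B))) := by
    rw [← ENNReal.ofReal_mul (by positivity)]
    congr 1; ring
  have h9 : ENNReal.ofReal ((‖dt C‖ ^ 2) ^ (-s)) * ENNReal.ofReal ((‖dt C‖ ^ 2) ^ s) = 1 := by
    rw [← ENNReal.ofReal_mul (Real.rpow_nonneg hdC.le _), ← Real.rpow_add hdC]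
    simp
  rw [h7, h8, ENNReal.ofReal_mul (by positivity)]
  calc _ = ENNReal.ofReal (Real.exp (-nsq B) / Real.pi ^ (n * n)) *
        (ENNReal.ofReal ((Real.pi ^ (n * n))⁻¹) * ENNReal.ofReal (Real.exp (-nsq (mm X B))) *
        ENNReal.ofReal ((‖dt B‖ ^ 2) ^ s)) * 1 := by rw [mul_one]
    _ = _ := by
      rw [← h9]
      ring

theorem vol_dt : ∀ᵐ B : Mt n n, dt B ≠ 0 := by
  have hnul := s_NUL s_UR n
  rw [Base.gau_eq, ae_withDensity_iff Base.measurable_dg] at hnul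
  filter_upwards [hnul] with B hB
  refine hB ?_
  have : 0 < Real.exp (-nsq B) / Real.pi ^ (n * n) := by positivity
  unfold Base.dg
  simpa using this

theorem measurable_mm1 (X : Mt n n) : Measurable fun B : Mt n n => mm X B := by
  have h := (continuous_mm (n := n)).measurable
  generalize (mm : Mt n n → Mt n n → Mt n n) = V at h ⊢
  exact h.comp (by fun_prop : Measurable fun B : Mt n n => (X, B))

theorem measurable_in (X : Mt n n) (s : ℝ) : Measurable fun B : Mt n n => Base.dg B *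
    (Base.dg (mm X B) * ENNReal.ofReal ((‖dt B‖ ^ 2) ^ s)) :=
  Base.measurable_dg.mul ((Base.measurable_dg.comp (measurable_mm1 X)).mul (measurable_rp n s))

/-- the integrand -/
noncomputable def PG (q : ℝ) (G : Mt n n → ℝ≥0∞) (x : Mt n n × Mt n n) : ℝ≥0∞ :=
  G (Matrix.of x.1 * (Matrix.of x.2)⁻¹) * ENNReal.ofReal (Y2 x ^ q)

theorem measurable_PG (q : ℝ) (G : Mt n n → ℝ≥0∞) (hG : Measurable G) : Measurable (PG q G) := by
  have hGm : Measurable fun x : Mt n n × Mt n n => G (Matrix.of x.1 * (Matrix.of x.2)⁻¹) :=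
    hG.comp measurable_AB
  exact hGm.mul (ENNReal.measurable_ofReal.comp (measurable_Y2.pow_const q))

theorem PG_mm (q : ℝ) (G : Mt n n → ℝ≥0∞) {B : Mt n n} (hB : dt B ≠ 0) (X : Mt n n) :
    PG q G (mm X B, B) = G X * ENNReal.ofReal (yy (Matrix.of X) ^ q) *
      ENNReal.ofReal ((‖dt B‖ ^ 2) ^ q) := by
  have hB2 : 0 < ‖dt B‖ ^ 2 := by positivity
  have hBu : IsUnit (Matrix.of B).det := isUnit_iff_ne_zero.2 hB
  have e1 : Matrix.of (mm X B) * (Matrix.of B)⁻¹ = Matrix.of X := by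
    change (Matrix.of X * Matrix.of B) * (Matrix.of B)⁻¹ = Matrix.of X
    rw [Matrix.mul_assoc, Matrix.mul_nonsing_inv _ hBu, Matrix.mul_one]
  have e2 : Y2 (mm X B, B) = ‖dt B‖ ^ 2 * yy (Matrix.of X) := by
    unfold Y2
    simp only
    rw [e1]
  have e3 : G (Matrix.of (mm X B) * (Matrix.of B)⁻¹) = G X := congrArg G e1
  unfold PG
  rw [e2]
  simp only
  rw [e3, Real.mul_rpow hB2.le (yy_pos _).le, ENNReal.ofReal_mul (Real.rpow_nonneg hB2.le _)]
  ring

theorem gg_lint (Φ : Mt n n × Mt n n → ℝ≥0∞) (hΦ : Measurable Φ) :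
    ∫⁻ x, Φ x ∂gg n = ∫⁻ B : Mt n n, Base.dg B * ∫⁻ A : Mt n n, Base.dg A * Φ (A, B) := by
  rw [gg, lintegral_prod_symm _ hΦ.aemeasurable, Base.gau_eq]
  rw [lintegral_withDensity_eq_lintegral_mul _ Base.measurable_dg hΦ.lintegral_prod_left']
  refine lintegral_congr fun B => ?_
  simp only [Pi.mul_apply]
  congr 1
  have hm : Measurable fun A : Mt n n => Φ (A, B) := hΦ.comp (by fun_prop)
  rw [lintegral_withDensity_eq_lintegral_mul _ Base.measurable_dg hm]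
  rfl

theorem red (q : ℝ) (hq : -1 < q) (G : Mt n n → ℝ≥0∞) (hG : Measurable G) :
    ∫⁻ x, PG q G x ∂gg n =
      ENNReal.ofReal ((Real.pi ^ (n * n))⁻¹) * Ig n (n + q) *
      ∫⁻ X : Mt n n, G X * ENNReal.ofReal (yy (Matrix.of X) ^ q) *
        ENNReal.ofReal ((dd (Matrix.of X)).re ^ (-(2 * (n : ℝ) + q))) := by
  have hΦ := measurable_PG q G hG
  rw [gg_lint _ hΦ]
  have h2 : ∀ B : Mt n n, dt B ≠ 0 → Base.dg B * ∫⁻ A : Mt n n, Base.dg A * PG q G (A, B) =
      ∫⁻ X : Mt n n, G X * ENNReal.ofReal (yy (Matrix.of X) ^ q) * (Base.dg B *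
        (Base.dg (mm X B) * ENNReal.ofReal ((‖dt B‖ ^ 2) ^ ((n : ℝ) + q)))) := by
    intro B hB
    have hB2 : 0 < ‖dt B‖ ^ 2 := by positivity
    have hm : Measurable fun A : Mt n n => Base.dg A * PG q G (A, B) :=
      Base.measurable_dg.mul (hΦ.comp (by fun_prop : Measurable fun A : Mt n n => (A, B)))
    have hdgt : Base.dg B ≠ ∞ := ENNReal.ofReal_ne_top
    rw [lint_mm' hB _ hm, ← lintegral_const_mul' _ _ ENNReal.ofReal_ne_top,
      ← lintegral_const_mul' _ _ hdgt]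
    refine lintegral_congr fun X => ?_
    rw [PG_mm q G hB X, Real.rpow_add hB2, ENNReal.ofReal_mul (Real.rpow_nonneg hB2.le _)]
    ring
  have h3 : ∫⁻ B : Mt n n, Base.dg B * ∫⁻ A : Mt n n, Base.dg A * PG q G (A, B) =
      ∫⁻ B : Mt n n, ∫⁻ X : Mt n n, G X * ENNReal.ofReal (yy (Matrix.of X) ^ q) * (Base.dg B *
        (Base.dg (mm X B) * ENNReal.ofReal ((‖dt B‖ ^ 2) ^ ((n : ℝ) + q)))) := by
    refine lintegral_congr_ae ?_
    filter_upwards [vol_dt] with B hB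
    exact h2 B hB
  rw [h3]
  have m3 : Measurable fun p : Mt n n × Mt n n => Base.dg (mm p.2 p.1) :=
    Base.measurable_dg.comp (continuous_mm.measurable.comp measurable_swap)
  have m1 : Measurable fun p : Mt n n × Mt n n => G p.2 * ENNReal.ofReal (yy (Matrix.of p.2) ^ q) :=
    (hG.comp measurable_snd).mul (ENNReal.measurable_ofReal.comp
      ((measurable_yy.comp measurable_snd).pow_const q))
  have m2 : Measurable fun p : Mt n n × Mt n n => Base.dg p.1 :=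
    Base.measurable_dg.comp measurable_fst
  have m4 : Measurable fun p : Mt n n × Mt n n =>
      ENNReal.ofReal ((‖dt p.1‖ ^ 2) ^ ((n : ℝ) + q)) := (measurable_rp n _).comp measurable_fst
  have hmm : Measurable (Function.uncurry fun (B X : Mt n n) =>
      G X * ENNReal.ofReal (yy (Matrix.of X) ^ q) * (Base.dg B *
        (Base.dg (mm X B) * ENNReal.ofReal ((‖dt B‖ ^ 2) ^ ((n : ℝ) + q))))) :=
    m1.mul (m2.mul (m3.mul m4))
  rw [lintegral_lintegral_swap hmm.aemeasurable]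
  have h4 : ∀ X : Mt n n, ∫⁻ B : Mt n n, G X * ENNReal.ofReal (yy (Matrix.of X) ^ q) * (Base.dg B *
        (Base.dg (mm X B) * ENNReal.ofReal ((‖dt B‖ ^ 2) ^ ((n : ℝ) + q)))) =
      (ENNReal.ofReal ((Real.pi ^ (n * n))⁻¹) * Ig n (n + q)) *
        (G X * ENNReal.ofReal (yy (Matrix.of X) ^ q) *
        ENNReal.ofReal ((dd (Matrix.of X)).re ^ (-(2 * (n : ℝ) + q)))) := by
    intro X
    have m5 : Measurable fun B : Mt n n => Base.dg B *
        (Base.dg (mm X B) * ENNReal.ofReal ((‖dt B‖ ^ 2) ^ ((n : ℝ) + q))) :=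
      measurable_in X (n + q)
    rw [lintegral_const_mul _ m5, inner X (n + q)]
    rw [show (-((n : ℝ) + (n + q))) = (-(2 * (n : ℝ) + q)) by ring]
    ring
  simp_rw [h4]
  have htop : Ig n (n + q) ≠ ∞ := by
    rw [Ig_eq n _ (by have : (0 : ℝ) ≤ n := Nat.cast_nonneg n
                      linarith)]
    exact ENNReal.ofReal_ne_top
  rw [lintegral_const_mul' _ _ (ENNReal.mul_ne_top ENNReal.ofReal_ne_top htop)]

end Pool.Agent.K7.H96.GMC
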