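import Pool.Agent.K7.H96.GMC.YY

set_option autoImplicit false

/-!
The effect of the factor `yy ^ q`, by induction on the size.
-/

open MeasureTheory Set Filter Topology Matrix
open scoped ENNReal

namespace Pool.Agent.K7.H96.GMC

open Pool.Agent.R923.SE Pool.Agent.K7.H95.GMC

/-- the ratio of the constants -/
noncomputable def rt : ℕ → ℝ → ℝ → ℝ
  | 0, _, _ => 1
  | n + 1, a, q => (Real.Gamma (a + q - n) / Real.Gamma (a + q) *
      (Real.Gamma a / Real.Gamma (a - n))) * rt n (a - 1) q

theorem rt_pos : ∀ (n : ℕ) (a q : ℝ), (n : ℝ) - 1 < a → (n : ℝ) - 1 < a + q → 0 < rt n a q := by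
  intro n
  induction n with
  | zero => intro a q _ _; exact one_pos
  | succ n ih =>
    intro a q ha hq
    push_cast at ha hq
    have hn : (0 : ℝ) ≤ n := Nat.cast_nonneg n
    have h1 := Real.Gamma_pos_of_pos (show 0 < a + q - n by linarith)
    have h2 := Real.Gamma_pos_of_pos (show 0 < a + q by linarith)
    have h3 := Real.Gamma_pos_of_pos (show 0 < a by linarith)
    have h4 := Real.Gamma_pos_of_pos (show 0 < a - n by linarith)
    have h5 := ih (a - 1) q (by linarith) (by linarith)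
    rw [rt]
    positivity

theorem dd_pos {m : ℕ} (X : Matrix (Fin m) (Fin m) ℂ) : 0 < (dd X).re := by
  obtain ⟨C, hC0, hC⟩ := exists_chol X
  rw [dd_chol hC, Complex.ofReal_re]
  positivity

theorem measurable_evalnorm {n : ℕ} (z : ℂ) :
    Measurable fun X : Mt n n => ENNReal.ofReal (‖(Matrix.of X).charpoly.eval z‖ ^ 2) := by
  have h1 : Continuous fun X : Mt n n => rs z X :=
    continuous_rs.comp (by fun_prop : Continuous fun X : Mt n n => (z, X))
  simp only [eval_cp]
  exact ENNReal.measurable_ofReal.comp (h1.matrix_det.norm.pow 2).measurable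

theorem K_rec : ∀ (n : ℕ) (a q : ℝ), (n : ℝ) - 1 < a → (n : ℝ) - 1 < a + q →
    ∀ G : Mt n n → ℝ≥0∞, Measurable G →
    (∀ X X' : Mt n n, (Matrix.of X).charpoly = (Matrix.of X').charpoly → G X = G X') →
    ∫⁻ X : Mt n n, G X * ENNReal.ofReal (yy (Matrix.of X) ^ q) *
      ENNReal.ofReal ((dd (Matrix.of X)).re ^ (-(a + q))) =
    ENNReal.ofReal (rt n a q) * ∫⁻ X : Mt n n, G X * ENNReal.ofReal ((dd (Matrix.of X)).re ^ (-a)) := by
  intro n
  induction n with
  | zero =>
    intro a q _ _ G hG hGc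
    rw [rt, ENNReal.ofReal_one, one_mul]
    refine lintegral_congr fun X => ?_
    have h1 : yy (Matrix.of X) = 1 := by
      obtain ⟨v, hv⟩ := exists_roots X
      rw [yy_eq hv]; simp
    have h2 : dd (Matrix.of X) = 1 := by
      unfold dd; simp
    rw [h1, h2]
    simp
  | succ n ih =>
    intro a q ha hq G hG hGc
    push_cast at ha hq
    have hn : (0 : ℝ) ≤ n := Nat.cast_nonneg n
    have g1 := Real.Gamma_pos_of_pos (show 0 < a + q - n by linarith)
    have g2 := Real.Gamma_pos_of_pos (show 0 < a + q by linarith)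
    have g3 := Real.Gamma_pos_of_pos (show 0 < a by linarith)
    have g4 := Real.Gamma_pos_of_pos (show 0 < a - n by linarith)
    obtain ⟨c, hc0, hct, h⟩ := s_DEFL n
    -- the section of `G`
    set H₀ : ℂ × Mt n n → ℝ≥0∞ := fun p => G (blk p.1 0 0 p.2) with hH₀
    have hH₀m : Measurable H₀ := hG.comp (continuous_blk.comp (by fun_prop :
      Continuous fun p : ℂ × Mt n n => (p.1, (0 : Fin n → ℂ), (0 : Fin n → ℂ), p.2))).measurable
    have hGH₀ : ∀ (z : ℂ) (X' : Mt n n) (X : Mt (n + 1) (n + 1)), (Matrix.of X).charpoly =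
        (Polynomial.X - Polynomial.C z) * (Matrix.of X').charpoly → G X = H₀ (z, X') := by
      intro z X' X hX
      refine hGc _ _ ?_
      rw [hX, charpoly_tri]
    have hyym : Measurable fun p : ℂ × Mt n n =>
        ENNReal.ofReal (((1 + ‖p.1‖ ^ 2) * yy (Matrix.of p.2)) ^ q) := by
      have h3 : Measurable fun p : ℂ × Mt n n => yy (Matrix.of p.2) :=
        measurable_yy.comp measurable_snd
      exact ENNReal.measurable_ofReal.comp (((by fun_prop : Measurable fun p : ℂ × Mt n n =>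
        1 + ‖p.1‖ ^ 2).mul h3).pow_const q)
    have e1 := h (a + q) (by linarith) (fun X => G X * ENNReal.ofReal (yy (Matrix.of X) ^ q))
      (hG.mul (ENNReal.measurable_ofReal.comp (measurable_yy.pow_const q)))
      (fun X X' hX => by rw [hGc X X' hX, yy_class hX])
      (fun p => H₀ p * ENNReal.ofReal (((1 + ‖p.1‖ ^ 2) * yy (Matrix.of p.2)) ^ q))
      (hH₀m.mul hyym)
      (fun z X' X hX => by rw [hGH₀ z X' X hX, yy_tri hX])
    have e2 := h a (by linarith) G hG hGc H₀ hH₀m hGH₀
    -- the inner integral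
    have e3 : ∀ z : ℂ, ∫⁻ X' : Mt n n, H₀ (z, X') *
        ENNReal.ofReal (((1 + ‖z‖ ^ 2) * yy (Matrix.of X')) ^ q) *
        ENNReal.ofReal (‖(Matrix.of X').charpoly.eval z‖ ^ 2) *
        ENNReal.ofReal ((Matrix.det (1 + (Matrix.of X').conjTranspose * Matrix.of X')).re
          ^ (-(a + q) + 1)) =
        ENNReal.ofReal ((1 + ‖z‖ ^ 2) ^ q) * (ENNReal.ofReal (rt n (a - 1) q) *
          ∫⁻ X' : Mt n n, H₀ (z, X') *
        ENNReal.ofReal (‖(Matrix.of X').charpoly.eval z‖ ^ 2) *
        ENNReal.ofReal ((Matrix.det (1 + (Matrix.of X').conjTranspose * Matrix.of X')).re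
          ^ (-a + 1))) := by
      intro z
      have hGz : Measurable fun X' : Mt n n => H₀ (z, X') *
          ENNReal.ofReal (‖(Matrix.of X').charpoly.eval z‖ ^ 2) :=
        (hH₀m.comp (by fun_prop : Measurable fun X' : Mt n n => (z, X'))).mul (measurable_evalnorm z)
      have h4 := ih (a - 1) q (by linarith) (by linarith) (fun X' => H₀ (z, X') *
          ENNReal.ofReal (‖(Matrix.of X').charpoly.eval z‖ ^ 2)) hGz (fun X X' hX => by
            simp only [hH₀]
            rw [hX, hGc (blk z 0 0 X) (blk z 0 0 X') (by rw [charpoly_tri, charpoly_tri, hX])])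
      have e4 : (-(a - 1) : ℝ) = -a + 1 := by ring
      rw [e4] at h4
      have e5 : ∀ X' : Mt n n, (Matrix.det (1 + (Matrix.of X').conjTranspose * Matrix.of X')).re =
        (dd (Matrix.of X')).re := fun _ => rfl
      simp only [e5]
      rw [← h4, ← lintegral_const_mul' _ _ ENNReal.ofReal_ne_top]
      refine lintegral_congr fun X' => ?_
      have e6 : (-(a - 1 + q) : ℝ) = -(a + q) + 1 := by ring
      rw [e6, Real.mul_rpow (by positivity) (yy_pos _).le,
        ENNReal.ofReal_mul (Real.rpow_nonneg (by positivity) _)]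
      ring
    have e7 : ∫⁻ X : Mt (n + 1) (n + 1), G X * ENNReal.ofReal (yy (Matrix.of X) ^ q) *
      ENNReal.ofReal ((dd (Matrix.of X)).re ^ (-(a + q))) = ∫⁻ X : Mt (n + 1) (n + 1), G X *
      ENNReal.ofReal (yy (Matrix.of X) ^ q) *
      ENNReal.ofReal ((Matrix.det (1 + (Matrix.of X).conjTranspose * Matrix.of X)).re ^ (-(a + q))) :=
      rfl
    have e8 : ∫⁻ X : Mt (n + 1) (n + 1), G X * ENNReal.ofReal ((dd (Matrix.of X)).re ^ (-a)) =
      ∫⁻ X : Mt (n + 1) (n + 1), G X *
      ENNReal.ofReal ((Matrix.det (1 + (Matrix.of X).conjTranspose * Matrix.of X)).re ^ (-a)) := rfl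
    rw [e7, e8, e1, e2]
    simp only [e3]
    have e9 : ∀ z : ℂ, ENNReal.ofReal ((1 + ‖z‖ ^ 2) ^ (-(a + q) + n)) *
        (ENNReal.ofReal ((1 + ‖z‖ ^ 2) ^ q) * (ENNReal.ofReal (rt n (a - 1) q) *
          ∫⁻ X' : Mt n n, H₀ (z, X') *
        ENNReal.ofReal (‖(Matrix.of X').charpoly.eval z‖ ^ 2) *
        ENNReal.ofReal ((Matrix.det (1 + (Matrix.of X').conjTranspose * Matrix.of X')).re
          ^ (-a + 1)))) = ENNReal.ofReal (rt n (a - 1) q) *
        (ENNReal.ofReal ((1 + ‖z‖ ^ 2) ^ (-a + n)) * ∫⁻ X' : Mt n n, H₀ (z, X') *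
        ENNReal.ofReal (‖(Matrix.of X').charpoly.eval z‖ ^ 2) *
        ENNReal.ofReal ((Matrix.det (1 + (Matrix.of X').conjTranspose * Matrix.of X')).re
          ^ (-a + 1))) := by
      intro z
      have hz : (0 : ℝ) < 1 + ‖z‖ ^ 2 := by positivity
      have e10 : (1 + ‖z‖ ^ 2) ^ (-a + n : ℝ) =
          (1 + ‖z‖ ^ 2) ^ (-(a + q) + n : ℝ) * (1 + ‖z‖ ^ 2) ^ q := by
        rw [← Real.rpow_add hz]
        congr 1
        ring
      rw [e10, ENNReal.ofReal_mul (Real.rpow_nonneg hz.le _)]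
      ring
    simp only [e9]
    rw [lintegral_const_mul' _ _ ENNReal.ofReal_ne_top]
    have e11 : ENNReal.ofReal (rt (n + 1) a q) * ENNReal.ofReal (Real.Gamma (a - n) / Real.Gamma a) =
        ENNReal.ofReal (Real.Gamma (a + q - n) / Real.Gamma (a + q)) *
          ENNReal.ofReal (rt n (a - 1) q) := by
      have g5 := rt_pos n (a - 1) q (by linarith) (by linarith)
      have g6 := rt_pos (n + 1) a q (by push_cast; linarith) (by push_cast; linarith)
      rw [← ENNReal.ofReal_mul g6.le, ← ENNReal.ofReal_mul (by positivity)]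
      congr 1
      rw [rt]
      field_simp
    calc _ = c * (ENNReal.ofReal (Real.Gamma (a + q - n) / Real.Gamma (a + q)) *
          ENNReal.ofReal (rt n (a - 1) q)) * _ := by
          rw [mul_assoc, mul_assoc, mul_assoc]
      _ = _ := by
          rw [← e11]
          ring

end Pool.Agent.K7.H96.GMC
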