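import Pool.Agent.K7.H95.GMC.Defs

set_option autoImplicit false

/-!
Linear changes of variables over `ℂ`.
-/

open MeasureTheory Set Filter Topology Matrix
open scoped ENNReal

namespace Pool.Agent.K7.H96.GMC

open Pool.Agent.R923.SE

instance vol_haar (n m : ℕ) : (volume : Measure (Mt n m)).IsAddHaarMeasure := by
  have : (volume : Measure (Fin m → ℂ)).IsAddHaarMeasure := inferInstance
  exact Measure.pi.isAddHaarMeasure _

theorem lin_cv {E : Type*} [NormedAddCommGroup E] [NormedSpace ℝ E] [NormedSpace ℂ E]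
    [IsScalarTower ℝ ℂ E] [FiniteDimensional ℝ E] [FiniteDimensional ℂ E] [MeasurableSpace E]
    [BorelSpace E]
    (μ : Measure E) [μ.IsAddHaarMeasure] (L : E →ₗ[ℂ] E) (hL : LinearMap.det L ≠ 0)
    (f : E → ℝ≥0∞) (hf : Measurable f) :
    ∫⁻ x, f x ∂μ = ENNReal.ofReal (‖LinearMap.det L‖ ^ 2) * ∫⁻ x, f (L x) ∂μ := by
  have hdet : LinearMap.det (L.restrictScalars ℝ) = ‖LinearMap.det L‖ ^ 2 := by
    rw [LinearMap.det_restrictScalars, Algebra.norm_complex_apply, Complex.normSq_eq_norm_sq]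
  have hpos : 0 < ‖LinearMap.det L‖ ^ 2 := by positivity
  have h1 := Measure.map_linearMap_addHaar_eq_smul_addHaar μ (f := L.restrictScalars ℝ)
    (by rw [hdet]; exact hpos.ne')
  have hLm : Measurable (L.restrictScalars ℝ) :=
    (L.restrictScalars ℝ).continuous_of_finiteDimensional.measurable
  have h2 : ∫⁻ x, f (L x) ∂μ = ∫⁻ y, f y ∂(Measure.map (L.restrictScalars ℝ) μ) :=
    (lintegral_map hf hLm).symm
  rw [h2, h1, lintegral_smul_measure, smul_eq_mul, ← mul_assoc, hdet,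
    ← ENNReal.ofReal_mul hpos.le, abs_of_pos (inv_pos.2 hpos), mul_inv_cancel₀ hpos.ne']
  simp

theorem lint_mulVec {n : ℕ} (A : Matrix (Fin n) (Fin n) ℂ) (hA : A.det ≠ 0)
    (f : (Fin n → ℂ) → ℝ≥0∞) (hf : Measurable f) :
    ∫⁻ v, f v = ENNReal.ofReal (‖A.det‖ ^ 2) * ∫⁻ v, f (A *ᵥ v) := by
  have h := lin_cv (volume : Measure (Fin n → ℂ)) (Matrix.toLin' A)
    (by rwa [LinearMap.det_toLin']) f hf
  rw [LinearMap.det_toLin'] at h
  simpa using h

theorem lint_vecMul {n : ℕ} (A : Matrix (Fin n) (Fin n) ℂ) (hA : A.det ≠ 0)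
    (f : (Fin n → ℂ) → ℝ≥0∞) (hf : Measurable f) :
    ∫⁻ v, f v = ENNReal.ofReal (‖A.det‖ ^ 2) * ∫⁻ v, f (v ᵥ* A) := by
  have h := lint_mulVec Aᵀ (by rwa [det_transpose]) f hf
  rw [det_transpose] at h
  simpa [mulVec_transpose] using h

/-- right multiplication -/
def rm {n : ℕ} (T : Matrix (Fin n) (Fin n) ℂ) : Mt n n →ₗ[ℂ] Mt n n :=
  LinearMap.pi fun i => (Matrix.toLin' Tᵀ).comp (LinearMap.proj i)

theorem rm_apply {n : ℕ} (T : Matrix (Fin n) (Fin n) ℂ) (X : Mt n n) :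
    rm T X = Matrix.of X * T := by
  funext i j
  simp [rm, Matrix.mulVec, dotProduct, Matrix.mul_apply, mul_comm]

theorem det_rm {n : ℕ} (T : Matrix (Fin n) (Fin n) ℂ) : LinearMap.det (rm T) = T.det ^ n := by
  rw [rm, LinearMap.det_pi]
  simp

/-- transposition -/
def tr (n : ℕ) : Mt n n ≃ₗ[ℂ] Mt n n where
  toFun X := fun i j => X j i
  invFun X := fun i j => X j i
  map_add' _ _ := rfl
  map_smul' _ _ := rfl
  left_inv _ := rfl
  right_inv _ := rfl

/-- left multiplication -/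
def lm {n : ℕ} (S : Matrix (Fin n) (Fin n) ℂ) : Mt n n →ₗ[ℂ] Mt n n :=
  (tr n : Mt n n →ₗ[ℂ] Mt n n) ∘ₗ rm Sᵀ ∘ₗ ((tr n).symm : Mt n n →ₗ[ℂ] Mt n n)

theorem lm_apply {n : ℕ} (S : Matrix (Fin n) (Fin n) ℂ) (X : Mt n n) :
    lm S X = S * Matrix.of X := by
  funext i j
  simp [lm, tr, rm, Matrix.mulVec, dotProduct, Matrix.mul_apply]

theorem det_lm {n : ℕ} (S : Matrix (Fin n) (Fin n) ℂ) : LinearMap.det (lm S) = S.det ^ n := by
  rw [lm, LinearMap.det_conj, det_rm, det_transpose]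

theorem lint_conj {n : ℕ} (S T : Matrix (Fin n) (Fin n) ℂ) (hST : S * T = 1)
    (f : Mt n n → ℝ≥0∞) (hf : Measurable f) :
    ∫⁻ X, f X = ∫⁻ X : Mt n n, f (S * Matrix.of X * T) := by
  have hdet : S.det * T.det = 1 := by rw [← det_mul, hST, det_one]
  have h1 : LinearMap.det (rm T ∘ₗ lm S) = 1 := by
    rw [LinearMap.det_comp, det_rm, det_lm, ← mul_pow, mul_comm, hdet, one_pow]
  have h := lin_cv (volume : Measure (Mt n n)) (rm T ∘ₗ lm S) (by rw [h1]; exact one_ne_zero) f hf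
  rw [h1] at h
  simp only [norm_one, one_pow, ENNReal.ofReal_one, one_mul, LinearMap.comp_apply, lm_apply] at h
  rw [h]
  exact lintegral_congr fun X => congrArg f (rm_apply T (S * Matrix.of X))

theorem lint_rm {n : ℕ} (T : Matrix (Fin n) (Fin n) ℂ) (hT : T.det ≠ 0)
    (f : Mt n n → ℝ≥0∞) (hf : Measurable f) :
    ∫⁻ X, f X = ENNReal.ofReal (‖T.det ^ n‖ ^ 2) * ∫⁻ X : Mt n n, f (Matrix.of X * T) := by
  have h := lin_cv (volume : Measure (Mt n n)) (rm T) (by rw [det_rm]; exact pow_ne_zero _ hT) f hf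
  simp only [det_rm, rm_apply] at h
  exact h

theorem lint_lm {n : ℕ} (S : Matrix (Fin n) (Fin n) ℂ) (hS : S.det ≠ 0)
    (f : Mt n n → ℝ≥0∞) (hf : Measurable f) :
    ∫⁻ X, f X = ENNReal.ofReal (‖S.det ^ n‖ ^ 2) * ∫⁻ X : Mt n n, f (S * Matrix.of X) := by
  have h := lin_cv (volume : Measure (Mt n n)) (lm S) (by rw [det_lm]; exact pow_ne_zero _ hS) f hf
  simp only [det_lm, lm_apply] at h
  exact h

theorem null_submodule {E : Type*} [NormedAddCommGroup E] [NormedSpace ℝ E] [NormedSpace ℂ E]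
    [IsScalarTower ℝ ℂ E] [FiniteDimensional ℝ E] [MeasurableSpace E] [BorelSpace E]
    (μ : Measure E) [μ.IsAddHaarMeasure] {F : Type*} [AddCommGroup F] [Module ℂ F] (L : E →ₗ[ℂ] F)
    (hL : L ≠ 0) : ∀ᵐ x ∂μ, L x ≠ 0 := by
  have h := Measure.addHaar_submodule μ ((LinearMap.ker L).restrictScalars ℝ) (by
    intro h
    apply hL
    ext x
    have hx : x ∈ (LinearMap.ker L).restrictScalars ℝ := by rw [h]; trivial
    simpa using hx)
  rw [ae_iff]
  convert h using 2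
  ext x
  simp

end Pool.Agent.K7.H96.GMC
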