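import Mathlib

set_option autoImplicit false

/-!
The number of solutions of `P z / Q z = α`.
-/

open MeasureTheory Set Filter Topology Polynomial

namespace Pool.Agent.K7.H96.GMC

/-- the Wronskian -/
noncomputable def Wr (P Q : ℂ[X]) : ℂ[X] := derivative P * Q - P * derivative Q

theorem Wr_ne_zero {P Q : ℂ[X]} {n : ℕ} (hP : P.Monic) (hPn : P.natDegree = n + 1)
    (hQ : Q.Monic) (hQn : Q.natDegree = n) : Wr P Q ≠ 0 := by
  have hP1 : P.coeff (n + 1) = 1 := by
    have := hP.leadingCoeff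
    rwa [leadingCoeff, hPn] at this
  have hQ1 : Q.coeff n = 1 := by
    have := hQ.leadingCoeff
    rwa [leadingCoeff, hQn] at this
  have h1 : (derivative P * Q).coeff (n + n) = n + 1 := by
    rw [coeff_mul_add_eq_of_natDegree_le ((natDegree_derivative_le P).trans (by omega)) hQn.le,
      coeff_derivative, hP1, hQ1]
    ring
  have h2 : (P * derivative Q).coeff (n + n) = n := by
    rcases n with _ | m
    · have : Q = 1 := by
        exact hQ.natDegree_eq_zero.1 hQn
      simp [this]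
    · have e : m + 1 + (m + 1) = (m + 1 + 1) + m := by ring
      rw [e, coeff_mul_add_eq_of_natDegree_le hPn.le ((natDegree_derivative_le Q).trans (by omega)),
        coeff_derivative, hP1, hQ1]
      push_cast; ring
  intro h
  have h3 : (Wr P Q).coeff (n + n) = 1 := by
    rw [Wr, coeff_sub, h1, h2]; ring
  rw [h] at h3
  simp at h3

theorem fiber {P Q : ℂ[X]} {n : ℕ} (hP : P.Monic) (hPn : P.natDegree = n + 1)
    (hQ : Q.Monic) (hQn : Q.natDegree = n) (hco : ∀ z, Q.eval z = 0 → P.eval z ≠ 0) {α : ℂ}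
    (hα : ∀ z, (Wr P Q).eval z = 0 → P.eval z ≠ α * Q.eval z) :
    (P - C α * Q).Monic ∧ (P - C α * Q).natDegree = n + 1 ∧ (P - C α * Q).roots.Nodup ∧
      ∀ z ∈ (P - C α * Q).roots, Q.eval z ≠ 0 ∧ (Wr P Q).eval z ≠ 0 ∧ P.eval z = α * Q.eval z := by
  have hdeg : (C α * Q).degree < P.degree := by
    have h0 : (C α * Q).degree ≤ Q.degree := by
      by_cases ha : α = 0
      · simp [ha]
      · rw [degree_C_mul ha]
    refine lt_of_le_of_lt h0 ?_
    rw [degree_eq_natDegree hP.ne_zero, degree_eq_natDegree hQ.ne_zero, hPn, hQn]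
    exact_mod_cast Nat.lt_succ_self n
  have hm : (P - C α * Q).Monic := hP.sub_of_left hdeg
  have hroot : ∀ z ∈ (P - C α * Q).roots, P.eval z = α * Q.eval z := by
    intro z hz
    have h1 := (mem_roots'.1 hz).2
    simp only [IsRoot.def, eval_sub, eval_mul, eval_C] at h1
    linear_combination h1
  refine ⟨hm, ?_, ?_, ?_⟩
  · rw [natDegree_sub_eq_left_of_natDegree_lt, hPn]
    rw [hPn]
    exact lt_of_le_of_lt (natDegree_C_mul_le α Q) (by omega)
  · rw [Multiset.nodup_iff_count_le_one]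
    intro z
    by_contra hc
    rw [not_le, count_roots, one_lt_rootMultiplicity_iff_isRoot hm.ne_zero] at hc
    have h1 : P.eval z = α * Q.eval z :=
      hroot z (mem_roots'.2 ⟨hm.ne_zero, hc.1⟩)
    have h2 := hc.2
    simp only [IsRoot.def, derivative_sub, derivative_mul, derivative_C, zero_mul, zero_add,
      eval_sub, eval_mul, eval_C] at h2
    refine hα z ?_ h1
    simp only [Wr, eval_sub, eval_mul]
    rw [h1]
    linear_combination (Q.eval z) * h2
  · intro z hz
    have h1 := hroot z hz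
    refine ⟨fun h0 => ?_, fun h0 => hα z h0 h1, h1⟩
    exact hco z h0 (by rw [h1, h0, mul_zero])

/-- the bad values -/
noncomputable def bad (P Q : ℂ[X]) : Finset ℂ := by
  classical exact (Wr P Q).roots.toFinset.image fun z => P.eval z / Q.eval z

theorem not_bad {P Q : ℂ[X]} {n : ℕ} (hP : P.Monic) (hPn : P.natDegree = n + 1)
    (hQ : Q.Monic) (hQn : Q.natDegree = n) (hco : ∀ z, Q.eval z = 0 → P.eval z ≠ 0) {α : ℂ}
    (hα : α ∉ bad P Q) : ∀ z, (Wr P Q).eval z = 0 → P.eval z ≠ α * Q.eval z := by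
  classical
  intro z hz h1
  apply hα
  have hQ0 : Q.eval z ≠ 0 := fun h0 => hco z h0 (by rw [h1, h0, mul_zero])
  unfold bad
  rw [Finset.mem_image]
  refine ⟨z, ?_, ?_⟩
  · rw [Multiset.mem_toFinset]
    exact mem_roots'.2 ⟨Wr_ne_zero hP hPn hQ hQn, hz⟩
  · rw [h1]; field_simp

theorem ae_fiber {P Q : ℂ[X]} {n : ℕ} (hP : P.Monic) (hPn : P.natDegree = n + 1)
    (hQ : Q.Monic) (hQn : Q.natDegree = n) (hco : ∀ z, Q.eval z = 0 → P.eval z ≠ 0) :
    ∀ᵐ α : ℂ, (P - C α * Q).roots.Nodup ∧ ∃ F : Finset ℂ, F.card = n + 1 ∧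
      ∀ z, z ∈ F ↔ z ∈ {z | Q.eval z ≠ 0 ∧ (Wr P Q).eval z ≠ 0} ∧ P.eval z / Q.eval z = α := by
  classical
  have h0 : ∀ᵐ α : ℂ, α ∉ (bad P Q : Set ℂ) := by
    rw [ae_iff]
    simp only [not_not, Set.ofPred_mem_eq]
    exact (Finset.finite_toSet _).measure_zero _
  filter_upwards [h0] with α hα
  obtain ⟨h1, h2, h3, h4⟩ := fiber hP hPn hQ hQn hco (α := α)
    (not_bad hP hPn hQ hQn hco (by simpa using hα))
  refine ⟨h3, (P - C α * Q).roots.toFinset, ?_, ?_⟩
  · rw [Multiset.toFinset_card_of_nodup h3, ← h2]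
    exact (IsAlgClosed.splits (P - C α * Q)).natDegree_eq_card_roots.symm
  · intro z
    rw [Multiset.mem_toFinset]
    constructor
    · intro hz
      obtain ⟨a, b, c⟩ := h4 z hz
      exact ⟨⟨a, b⟩, by rw [c]; field_simp⟩
    · rintro ⟨⟨a, b⟩, c⟩
      rw [mem_roots']
      refine ⟨h1.ne_zero, ?_⟩
      rw [div_eq_iff a] at c
      simp [c]

end Pool.Agent.K7.H96.GMC
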