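import Pool.Agent.K7.H96.GMC.Sep
import Pool.Agent.K7.H96.GMC.Area

set_option autoImplicit false

/-!
The rational function `R z = z - c (z - M)⁻¹ β`.
-/

open MeasureTheory Set Filter Topology Matrix
open scoped ENNReal

namespace Pool.Agent.K7.H96.GMC

open Pool.Agent.R923.SE

variable {n : ℕ}

theorem eval_blk (z α : ℂ) (c β : Fin n → ℂ) (M : Mt n n) :
    (rs z (blk α c β M)).det = (z - α) * (rs z M).det - c ⬝ᵥ ((rs z M).adjugate *ᵥ β) := by
  rw [rs_blk, bord]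
  rw [Matrix.mulVec_neg, neg_dotProduct, dotProduct_neg, neg_neg]

theorem charpoly_blk (α : ℂ) (c β : Fin n → ℂ) (M : Mt n n) :
    (Matrix.of (blk α c β M)).charpoly = (Matrix.of (blk 0 c β M)).charpoly -
      Polynomial.C α * (Matrix.of M).charpoly := by
  refine Polynomial.funext fun z => ?_
  rw [Polynomial.eval_sub, Polynomial.eval_mul, Polynomial.eval_C, eval_cp, eval_cp, eval_cp,
    eval_blk, eval_blk]
  ring

/-- the rational function -/
noncomputable def Rr (c β : Fin n → ℂ) (M : Mt n n) (z : ℂ) : ℂ := z - c ⬝ᵥ ((rs z M)⁻¹ *ᵥ β)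

/-- its derivative -/
noncomputable def Rd (c β : Fin n → ℂ) (M : Mt n n) (z : ℂ) : ℂ :=
  1 + c ⬝ᵥ ((rs z M)⁻¹ *ᵥ ((rs z M)⁻¹ *ᵥ β))

theorem inv_eq_adj (A : Matrix (Fin n) (Fin n) ℂ) : A⁻¹ = (A.det)⁻¹ • A.adjugate := by
  rw [Matrix.inv_def, Ring.inverse_eq_inv']

theorem Rr_eq (c β : Fin n → ℂ) (M : Mt n n) (z : ℂ) (hz : (rs z M).det ≠ 0) :
    Rr c β M z = (Matrix.of (blk 0 c β M)).charpoly.eval z / (Matrix.of M).charpoly.eval z := by
  rw [eval_cp, eval_cp, eval_blk, Rr, inv_eq_adj, Matrix.smul_mulVec, dotProduct_smul, smul_eq_mul]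
  field_simp
  ring

theorem continuousAt_inv {z : ℂ} {M : Mt n n} (hz : (rs z M).det ≠ 0) :
    ContinuousAt (fun w => (rs w M)⁻¹) z := by
  have h1 : Continuous fun w : ℂ => rs w M :=
    continuous_rs.comp (continuous_id.prodMk continuous_const)
  simp only [inv_eq_adj]
  exact (h1.matrix_det.continuousAt.inv₀ hz).smul h1.matrix_adjugate.continuousAt

theorem ev_ne {z : ℂ} {M : Mt n n} (hz : (rs z M).det ≠ 0) : ∀ᶠ w in 𝓝 z, (rs w M).det ≠ 0 := by
  have h1 : Continuous fun w : ℂ => rs w M :=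
    continuous_rs.comp (continuous_id.prodMk continuous_const)
  exact h1.matrix_det.continuousAt.eventually_ne hz

theorem rs_sub (z w : ℂ) (M : Mt n n) : rs z M - rs w M = (z - w) • (1 : Matrix (Fin n) (Fin n) ℂ) := by
  ext i j
  rw [Matrix.sub_apply, rs_apply, rs_apply, Matrix.smul_apply, Matrix.one_apply]
  by_cases h : i = j <;> simp [h]

theorem hasDerivAt_Rr (c β : Fin n → ℂ) (M : Mt n n) (z : ℂ) (hz : (rs z M).det ≠ 0) :
    HasDerivAt (Rr c β M) (Rd c β M z) z := by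
  rw [hasDerivAt_iff_tendsto_slope]
  have h1 : ∀ᶠ w in 𝓝[≠] z, slope (Rr c β M) z w =
      1 + c ⬝ᵥ ((rs w M)⁻¹ *ᵥ ((rs z M)⁻¹ *ᵥ β)) := by
    filter_upwards [(ev_ne hz).filter_mono nhdsWithin_le_nhds, self_mem_nhdsWithin] with w hw hwz
    have hwz' : w - z ≠ 0 := sub_ne_zero.2 hwz
    have hinv : (rs w M)⁻¹ - (rs z M)⁻¹ = (z - w) • ((rs w M)⁻¹ * (rs z M)⁻¹) := by
      have e1 : (rs w M)⁻¹ * (rs z M - rs w M) * (rs z M)⁻¹ = (rs w M)⁻¹ - (rs z M)⁻¹ := by
        rw [Matrix.mul_sub, Matrix.sub_mul, Matrix.nonsing_inv_mul _ (isUnit_iff_ne_zero.2 hw),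
          Matrix.mul_assoc, Matrix.mul_nonsing_inv _ (isUnit_iff_ne_zero.2 hz), Matrix.mul_one,
          Matrix.one_mul]
      rw [← e1, rs_sub, Matrix.mul_smul, Matrix.mul_one, Matrix.smul_mul]
    have e2 : Rr c β M w - Rr c β M z = (w - z) - c ⬝ᵥ (((rs w M)⁻¹ - (rs z M)⁻¹) *ᵥ β) := by
      unfold Rr
      rw [Matrix.sub_mulVec, dotProduct_sub]
      ring
    rw [slope_def_field, e2, hinv, Matrix.smul_mulVec, dotProduct_smul, smul_eq_mul,
      Matrix.mulVec_mulVec]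
    field_simp
    ring
  refine Tendsto.congr' (h1.mono fun w hw => hw.symm) ?_
  have h2 : ContinuousAt (fun w => 1 + c ⬝ᵥ ((rs w M)⁻¹ *ᵥ ((rs z M)⁻¹ *ᵥ β))) z := by
    have h3 := continuousAt_inv hz
    have h4 : Continuous fun A : Matrix (Fin n) (Fin n) ℂ => 1 + c ⬝ᵥ (A *ᵥ ((rs z M)⁻¹ *ᵥ β)) :=
      continuous_const.add (continuous_const.dotProduct
        (continuous_id.matrix_mulVec continuous_const))
    exact h4.continuousAt.comp h3
  exact h2.tendsto.mono_left nhdsWithin_le_nhds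

theorem Rd_eq (c β : Fin n → ℂ) (M : Mt n n) (z : ℂ) (hz : (rs z M).det ≠ 0) :
    Rd c β M z = (Wr (Matrix.of (blk 0 c β M)).charpoly (Matrix.of M).charpoly).eval z /
      ((Matrix.of M).charpoly.eval z) ^ 2 := by
  have hz' : (Matrix.of M).charpoly.eval z ≠ 0 := by rwa [eval_cp]
  have h1 := hasDerivAt_Rr c β M z hz
  have h2 : HasDerivAt (fun w => (Matrix.of (blk 0 c β M)).charpoly.eval w /
      (Matrix.of M).charpoly.eval w) _ z :=
    ((Matrix.of (blk 0 c β M)).charpoly.hasDerivAt z).div ((Matrix.of M).charpoly.hasDerivAt z) hz'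
  have h3 : Rr c β M =ᶠ[𝓝 z] fun w => (Matrix.of (blk 0 c β M)).charpoly.eval w /
      (Matrix.of M).charpoly.eval w := by
    filter_upwards [ev_ne hz] with w hw
    exact Rr_eq c β M w hw
  rw [(h1.congr_of_eventuallyEq h3.symm).unique h2]
  simp [Wr]

theorem area_R (c β : Fin n → ℂ) (M : Mt n n)
    (hβ : ∀ z, (rs z M).det = 0 → c ⬝ᵥ ((rs z M).adjugate *ᵥ β) ≠ 0)
    (ψ : ℂ → ℝ≥0∞) (hψ : Measurable ψ) :
    ∫⁻ z, ENNReal.ofReal (‖Rd c β M z‖ ^ 2) * ψ (Rr c β M z) = ((n + 1 : ℕ) : ℝ≥0∞) * ∫⁻ w, ψ w := by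
  set P := (Matrix.of (blk 0 c β M)).charpoly with hPdef
  set Q := (Matrix.of M).charpoly with hQdef
  have hP : P.Monic := Matrix.charpoly_monic _
  have hQ : Q.Monic := Matrix.charpoly_monic _
  have hPn : P.natDegree = n + 1 := by
    rw [hPdef, Matrix.charpoly_natDegree_eq_dim]; simp
  have hQn : Q.natDegree = n := by
    rw [hQdef, Matrix.charpoly_natDegree_eq_dim]; simp
  have hco : ∀ z, Q.eval z = 0 → P.eval z ≠ 0 := by
    intro z hz
    rw [hQdef, eval_cp] at hz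
    rw [hPdef, eval_cp, eval_blk, hz, mul_zero, zero_sub]
    exact neg_ne_zero.2 (hβ z hz)
  have hae := ae_fiber hP hPn hQ hQn hco
  set U : Set ℂ := {z | Q.eval z ≠ 0 ∧ (Wr P Q).eval z ≠ 0} with hU
  have hUo : IsOpen U := (isOpen_ne_fun Q.continuous continuous_const).inter
    (isOpen_ne_fun (Wr P Q).continuous continuous_const)
  have hUc : volume Uᶜ = 0 := by
    refine Set.Finite.measure_zero ?_ _
    have h1 := Polynomial.finite_setOfPred_isRoot hQ.ne_zero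
    have h2 := Polynomial.finite_setOfPred_isRoot (Wr_ne_zero hP hPn hQ hQn)
    refine (h1.union h2).subset fun z hz => ?_
    by_contra hc
    simp only [mem_union, not_or] at hc
    exact hz ⟨hc.1, hc.2⟩
  have hdet : ∀ z ∈ U, (rs z M).det ≠ 0 := fun z hz => by
    have := hz.1
    rwa [hQdef, eval_cp] at this
  have h := area_eq (Rr c β M) (Rd c β M) hUo.measurableSet
    (fun z hz => hasDerivAt_Rr c β M z (hdet z hz))
    (fun z hz => by
      rw [Rd_eq c β M z (hdet z hz)]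
      exact div_ne_zero hz.2 (pow_ne_zero _ hz.1)) (n + 1)
    (by
      filter_upwards [hae] with α hα
      obtain ⟨-, F, hF, hF2⟩ := hα
      refine ⟨F, hF, fun z => ?_⟩
      rw [hF2]
      constructor
      · rintro ⟨a, b⟩
        exact ⟨a, by rw [Rr_eq c β M z (hdet z a)]; exact b⟩
      · rintro ⟨a, b⟩
        exact ⟨a, by rw [Rr_eq c β M z (hdet z a)] at b; exact b⟩) ψ hψ
  rw [← h]
  rw [← lintegral_add_compl _ hUo.measurableSet, Measure.restrict_eq_zero.2 hUc,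
    lintegral_zero_measure, add_zero]

end Pool.Agent.K7.H96.GMC
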