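import Pool.Agent.K7.H96.GMC.Lin
import Pool.Agent.K7.H96.GMC.Blk
import Pool.Agent.K7.H96.GMC.Poly

set_option autoImplicit false

/-!
Generic matrices.
-/

open MeasureTheory Set Filter Topology Matrix
open scoped ENNReal

namespace Pool.Agent.K7.H96.GMC

open Pool.Agent.R923.SE

variable {n : ℕ}

/-- `z - M` -/
def rs (z : ℂ) (M : Mt n n) : Matrix (Fin n) (Fin n) ℂ := Matrix.scalar (Fin n) z - Matrix.of M

theorem rs_apply (z : ℂ) (M : Mt n n) (i j : Fin n) :
    rs z M i j = (if i = j then z else 0) - M i j := by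
  simp [rs, Matrix.diagonal_apply]

theorem eval_cp (z : ℂ) (M : Mt n n) : (Matrix.of M).charpoly.eval z = (rs z M).det :=
  Matrix.eval_charpoly _ _

theorem continuous_rs : Continuous fun p : ℂ × Mt n n => rs p.1 p.2 := by
  refine continuous_pi fun i => continuous_pi fun j => ?_
  simp only [rs_apply]
  by_cases h : i = j
  · simp only [h, if_true]; fun_prop
  · simp only [h, if_false]; fun_prop

theorem rs_blk (z α : ℂ) (c β : Fin n → ℂ) (M : Mt n n) :
    rs z (blk α c β M) = Matrix.of (blk (z - α) (-c) (-β) (rs z M)) := by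
  ext i j
  rw [rs_apply, Matrix.of_apply]
  refine Fin.cases ?_ (fun i => ?_) i <;> refine Fin.cases ?_ (fun j => ?_) j
  · simp [blk]
  · simp [blk, (Fin.succ_ne_zero j).symm]
  · simp [blk]
  · simp [blk, rs_apply]

theorem bord_inv (a : ℂ) (r s : Fin n → ℂ) (D : Matrix (Fin n) (Fin n) ℂ) (hD : D.det ≠ 0) :
    (Matrix.of (blk a r s D)).det = a * D.det - r ⬝ᵥ (D.adjugate *ᵥ s) := by
  have hu : IsUnit D.det := isUnit_iff_ne_zero.2 hD
  have : Invertible D := D.invertibleOfIsUnitDet hu
  refine (congrArg Matrix.det (blk_eq a r s D)).trans ?_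
  rw [Matrix.det_reindex_self]
  have h := Matrix.det_fromBlocks₂₂ (Matrix.of fun _ _ => a : Matrix Unit Unit ℂ)
    (replicateRow Unit r) (replicateCol Unit s) D
  refine h.trans ?_
  rw [Matrix.det_unique (Matrix.of (fun _ _ => a : Unit → Unit → ℂ) - _)]
  have h2 : D.adjugate = D.det • ⅟D := by
    have : Invertible D.det := D.detInvertibleOfInvertible
    rw [Matrix.invOf_eq, smul_smul]
    simp
  rw [h2, Matrix.smul_mulVec, dotProduct_smul, smul_eq_mul]
  have h3 : (replicateRow Unit r * ⅟D * replicateCol Unit s : Matrix Unit Unit ℂ)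
      default default = r ⬝ᵥ (⅟D *ᵥ s) := by
    rw [Matrix.mul_assoc]
    rfl
  rw [Matrix.sub_apply, h3, Matrix.of_apply]
  ring

theorem bord (a : ℂ) (r s : Fin n → ℂ) (D : Matrix (Fin n) (Fin n) ℂ) :
    (Matrix.of (blk a r s D)).det = a * D.det - r ⬝ᵥ (D.adjugate *ᵥ s) := by
  have hd : Dense {t : ℂ | (rs t (-D : Matrix (Fin n) (Fin n) ℂ)).det ≠ 0} := by
    have hf : Set.Finite {t : ℂ | (rs t (-D : Matrix (Fin n) (Fin n) ℂ)).det = 0} := by
      have h0 : (Matrix.of (-D : Matrix (Fin n) (Fin n) ℂ)).charpoly ≠ 0 :=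
        (Matrix.charpoly_monic _).ne_zero
      refine (Polynomial.finite_setOfPred_isRoot h0).subset fun t ht => ?_
      show Polynomial.IsRoot _ t
      rw [Polynomial.IsRoot.def]
      exact (eval_cp t _).trans ht
    have := hf.countable.dense_compl ℂ
    exact this
  have hc1 : Continuous fun t : ℂ => rs t (-D : Matrix (Fin n) (Fin n) ℂ) :=
    continuous_rs.comp (continuous_id.prodMk continuous_const)
  have hc2 : Continuous fun t : ℂ => (Matrix.of (blk a r s (rs t (-D : Matrix (Fin n) (Fin n) ℂ)))).det := by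
    refine Continuous.matrix_det ?_
    exact continuous_blk.comp (continuous_const.prodMk (continuous_const.prodMk
      (continuous_const.prodMk hc1)))
  have hc3 : Continuous fun t : ℂ => a * (rs t (-D : Matrix (Fin n) (Fin n) ℂ)).det -
      r ⬝ᵥ ((rs t (-D : Matrix (Fin n) (Fin n) ℂ)).adjugate *ᵥ s) := by
    refine (continuous_const.mul hc1.matrix_det).sub ?_
    exact continuous_const.dotProduct (hc1.matrix_adjugate.matrix_mulVec continuous_const)
  have h := Continuous.ext_on hd hc2 hc3 fun t ht => bord_inv a r s _ ht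
  have h0 := congrFun h 0
  have e : rs 0 (-D : Matrix (Fin n) (Fin n) ℂ) = D := by
    ext i j
    refine (rs_apply 0 (-D : Matrix (Fin n) (Fin n) ℂ) i j).trans ?_
    change (if i = j then (0 : ℂ) else 0) - -(D i j) = D i j
    simp
  simp only [e] at h0
  exact h0

/-- nonderogatory matrices -/
def Good (M : Mt n n) : Prop := ∀ z : ℂ, (rs z M).det = 0 → (rs z M).adjugate ≠ 0

theorem meas_good : MeasurableSet {M : Mt n n | Good M} := by
  have hcl : IsClosed {p : ℂ × Mt n n | (rs p.1 p.2).det = 0 ∧ (rs p.1 p.2).adjugate = 0} :=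
    (isClosed_eq continuous_rs.matrix_det continuous_const).inter
      (isClosed_eq continuous_rs.matrix_adjugate continuous_const)
  have hs : IsSigmaCompact {p : ℂ × Mt n n | (rs p.1 p.2).det = 0 ∧ (rs p.1 p.2).adjugate = 0} :=
    isSigmaCompact_univ.of_isClosed_subset hcl (subset_univ _)
  obtain ⟨K, hK, hKU⟩ := hs.image continuous_snd
  have e : {M : Mt n n | Good M} = (⋃ k, K k)ᶜ := by
    rw [hKU]
    ext M
    simp only [Good, mem_ofPred_eq, mem_compl_iff, mem_image, Prod.exists, exists_eq_right, not_exists,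
      not_and]
  rw [e]
  exact (MeasurableSet.iUnion fun k => (hK k).measurableSet).compl

theorem good_blk {α : ℂ} {c β : Fin n → ℂ} {M : Mt n n}
    (hc : ∀ z, (rs z M).det = 0 → c ᵥ* (rs z M).adjugate ≠ 0) : Good (blk α c β M) := by
  intro z hz hadj
  have h1 : ∀ b : Fin (n + 1) → ℂ, ((rs z (blk α c β M)).updateCol 0 b).det = 0 := by
    intro b
    rw [← Matrix.cramer_apply, Matrix.cramer_eq_adjugate_mulVec, hadj]
    simp
  have h2 : ∀ (a : ℂ) (s : Fin n → ℂ), (rs z (blk α c β M)).updateCol 0 (Fin.cons a s) =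
      Matrix.of (blk a (-c) s (rs z M)) := by
    intro a s
    ext i j
    rw [rs_blk]
    refine Fin.cases ?_ (fun i => ?_) i <;> refine Fin.cases ?_ (fun j => ?_) j <;>
      simp [blk, Matrix.updateCol_apply]
  have h3 : ∀ (a : ℂ) (s : Fin n → ℂ), a * (rs z M).det + c ⬝ᵥ ((rs z M).adjugate *ᵥ s) = 0 := by
    intro a s
    have := h1 (Fin.cons a s)
    rw [h2, bord] at this
    rw [← this, neg_dotProduct]; ring
  have h4 : (rs z M).det = 0 := by simpa using h3 1 0
  refine hc z h4 ?_
  funext j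
  have := h3 0 (Pi.single j 1)
  rw [dotProduct_mulVec] at this
  simpa using this

theorem finite_roots (M : Mt n n) : Set.Finite {z : ℂ | (rs z M).det = 0} := by
  have h0 : (Matrix.of M).charpoly ≠ 0 := (Matrix.charpoly_monic _).ne_zero
  refine (Polynomial.finite_setOfPred_isRoot h0).subset fun t ht => ?_
  show Polynomial.IsRoot _ t
  rw [Polynomial.IsRoot.def]
  exact (eval_cp t _).trans ht

theorem ae_c {M : Mt n n} (hM : Good M) :
    ∀ᵐ c : Fin n → ℂ, ∀ z, (rs z M).det = 0 → c ᵥ* (rs z M).adjugate ≠ 0 := by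
  have h := (ae_ball_iff (μ := (volume : Measure (Fin n → ℂ))) (finite_roots M).countable
    (p := fun c z _ => c ᵥ* (rs z M).adjugate ≠ 0)).2 (fun z hz => by
      have := null_submodule (volume : Measure (Fin n → ℂ))
        (Matrix.vecMulLinear (rs z M).adjugate) (fun h0 => hM z hz (by
          ext i j
          have h1 := congrFun (congrArg (fun L : (Fin n → ℂ) →ₗ[ℂ] (Fin n → ℂ) => L (Pi.single i 1)) h0) j
          simpa using h1))
      exact this)
  filter_upwards [h] with c hc z hz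
  exact hc z hz

theorem ae_b {M : Mt n n} {c : Fin n → ℂ}
    (hc : ∀ z, (rs z M).det = 0 → c ᵥ* (rs z M).adjugate ≠ 0) :
    ∀ᵐ β : Fin n → ℂ, ∀ z, (rs z M).det = 0 → c ⬝ᵥ ((rs z M).adjugate *ᵥ β) ≠ 0 := by
  have h := (ae_ball_iff (μ := (volume : Measure (Fin n → ℂ))) (finite_roots M).countable
    (p := fun β z _ => c ⬝ᵥ ((rs z M).adjugate *ᵥ β) ≠ 0)).2 (fun z hz => by
      have := null_submodule (volume : Measure (Fin n → ℂ)) (F := ℂ)
        (dotProductBilin ℂ ℂ (c ᵥ* (rs z M).adjugate)) (fun h0 => hc z hz (by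
          funext j
          have h1 := congrArg (fun L : (Fin n → ℂ) →ₗ[ℂ] ℂ => L (Pi.single j 1)) h0
          simpa using h1))
      filter_upwards [this] with β hβ
      rw [dotProduct_mulVec]
      exact hβ)
  filter_upwards [h] with c hc z hz
  exact hc z hz

theorem ae_of_blk {p : Mt (n + 1) (n + 1) → Prop} (hp : MeasurableSet {X | p X})
    (h : ∀ᵐ M : Mt n n, ∀ᵐ c : Fin n → ℂ, ∀ β α, p (blk α c β M)) : ∀ᵐ X, p X := by
  rw [ae_iff]
  have h1 : volume {X | ¬ p X} = ∫⁻ X, ({X | p X}ᶜ).indicator (fun _ => (1 : ℝ≥0∞)) X := by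
    rw [lintegral_indicator hp.compl]
    simp
    rfl
  rw [h1, lint_blk _ (measurable_const.indicator hp.compl)]
  have h2 : ∀ᵐ M : Mt n n, ∫⁻ β : Fin n → ℂ, ∫⁻ c : Fin n → ℂ, ∫⁻ α : ℂ,
      ({X | p X}ᶜ).indicator (fun _ => (1 : ℝ≥0∞)) (blk α c β M) = 0 := by
    filter_upwards [h] with M hM
    have h3 : ∀ β : Fin n → ℂ, ∫⁻ c : Fin n → ℂ, ∫⁻ α : ℂ,
      ({X | p X}ᶜ).indicator (fun _ => (1 : ℝ≥0∞)) (blk α c β M) = 0 := by
      intro β
      refine (lintegral_congr_ae (g := fun _ => 0) ?_).trans lintegral_zero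
      filter_upwards [hM] with c hc
      refine (lintegral_congr (g := fun _ => 0) fun α => ?_).trans lintegral_zero
      rw [Set.indicator_of_notMem]
      simp only [mem_compl_iff, not_not]
      exact hc β α
    simp [h3]
  exact (lintegral_congr_ae h2).trans lintegral_zero

theorem ae_good : ∀ n : ℕ, ∀ᵐ M : Mt n n, Good M := by
  intro n
  induction n with
  | zero =>
    refine Filter.Eventually.of_forall fun M z hz => ?_
    simp at hz
  | succ n ih =>
    refine ae_of_blk meas_good ?_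
    filter_upwards [ih] with M hM
    filter_upwards [ae_c hM] with c hc β α
    exact good_blk hc

end Pool.Agent.K7.H96.GMC
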