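import Pool.Agent.K7.H96.GMC.Defl

set_option autoImplicit false

/-!
Measurability of `yy`.
-/

open MeasureTheory Set Filter Topology Matrix
open scoped ENNReal

namespace Pool.Agent.K7.H96.GMC

open Pool.Agent.R923.SE Pool.Agent.K7.H95.GMC

variable {n : ℕ}

theorem exists_roots (X : Mt n n) : ∃ v : Fin n → ℂ,
    (Matrix.of X).charpoly.roots = Multiset.map v Finset.univ.val := by
  have hc : (Matrix.of X).charpoly.roots.card = n := by
    have h1 := (IsAlgClosed.splits (Matrix.of X).charpoly).natDegree_eq_card_roots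
    rw [← h1, Matrix.charpoly_natDegree_eq_dim]
    simp
  obtain ⟨l, hl⟩ := Quot.exists_rep (Matrix.of X).charpoly.roots
  have hl' : (l : Multiset ℂ) = (Matrix.of X).charpoly.roots := hl
  have hlen : l.length = n := by
    rw [← hl'] at hc
    simpa using hc
  subst hlen
  refine ⟨l.get, ?_⟩
  rw [← hl']
  simp

theorem yy_eq {X : Mt n n} {v : Fin n → ℂ}
    (h : (Matrix.of X).charpoly.roots = Multiset.map v Finset.univ.val) :
    yy (Matrix.of X) = ∏ i, (1 + ‖v i‖ ^ 2) := by
  unfold yy
  rw [h, Multiset.map_map]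
  rfl

theorem eval_of_roots {X : Mt n n} {v : Fin n → ℂ}
    (h : (Matrix.of X).charpoly.roots = Multiset.map v Finset.univ.val) (z : ℂ) :
    (rs z X).det = ∏ i, (z - v i) := by
  rw [← eval_cp]
  have h1 := (IsAlgClosed.splits (Matrix.of X).charpoly).eq_prod_roots
  rw [(Matrix.charpoly_monic _).leadingCoeff, h, Multiset.map_map] at h1
  rw [h1, Polynomial.eval_mul, Polynomial.eval_C, one_mul, Polynomial.eval_multiset_prod,
    Multiset.map_map]
  simp [List.prod_ofFn]

theorem roots_of_eval {X : Mt n n} {v : Fin n → ℂ} (h : ∀ z, (rs z X).det = ∏ i, (z - v i)) :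
    (Matrix.of X).charpoly.roots = Multiset.map v Finset.univ.val := by
  have h1 : (Matrix.of X).charpoly = ∏ i, (Polynomial.X - Polynomial.C (v i)) := by
    refine Polynomial.funext fun z => ?_
    rw [eval_cp, h, Polynomial.eval_prod]
    simp
  rw [h1, Polynomial.roots_prod _ _ (Finset.prod_ne_zero_iff.2 fun i _ => Polynomial.X_sub_C_ne_zero _)]
  simp only [Polynomial.roots_X_sub_C]
  rw [Multiset.bind_singleton]

theorem measurable_yy : Measurable fun X : Mt n n => yy (Matrix.of X) := by
  refine measurable_of_Iic fun t => ?_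
  have hcl : IsClosed {p : Mt n n × (Fin n → ℂ) | (∀ z, (rs z p.1).det = ∏ i, (z - p.2 i)) ∧
      ∏ i, (1 + ‖p.2 i‖ ^ 2) ≤ t} := by
    have h1 : IsClosed {p : Mt n n × (Fin n → ℂ) | ∀ z, (rs z p.1).det = ∏ i, (z - p.2 i)} := by
      simp only [ofPred_forall]
      refine isClosed_iInter fun z => isClosed_eq ?_ ?_
      · have h2 : Continuous fun p : Mt n n × (Fin n → ℂ) => rs z p.1 :=
          continuous_rs.comp (by fun_prop : Continuous fun p : Mt n n × (Fin n → ℂ) => (z, p.1))
        exact h2.matrix_det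
      · fun_prop
    have h3 : IsClosed {p : Mt n n × (Fin n → ℂ) | ∏ i, (1 + ‖p.2 i‖ ^ 2) ≤ t} :=
      isClosed_le (by fun_prop) continuous_const
    exact h1.inter h3
  obtain ⟨K, hK, hKU⟩ := (isSigmaCompact_univ.of_isClosed_subset hcl (subset_univ _)).image
    continuous_fst
  have e : (fun X : Mt n n => yy (Matrix.of X)) ⁻¹' Iic t = ⋃ k, K k := by
    rw [hKU]
    ext X
    simp only [mem_preimage, mem_Iic, mem_image, Prod.exists, mem_ofPred_eq]
    constructor
    · intro h
      obtain ⟨v, hv⟩ := exists_roots X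
      refine ⟨X, v, ⟨eval_of_roots hv, ?_⟩, rfl⟩
      rw [← yy_eq hv]; exact h
    · rintro ⟨X', v, ⟨h1, h2⟩, rfl⟩
      rw [yy_eq (roots_of_eval h1)]; exact h2
  rw [e]
  exact MeasurableSet.iUnion fun k => (hK k).measurableSet

theorem yy_pos {m : ℕ} (X : Matrix (Fin m) (Fin m) ℂ) : 0 < yy X := by
  obtain ⟨v, hv⟩ := exists_roots (n := m) X
  have h := yy_eq (X := X) hv
  have h2 : yy X = ∏ i, (1 + ‖v i‖ ^ 2) := h
  rw [h2]
  exact Finset.prod_pos fun i _ => by positivity

theorem yy_tri {z : ℂ} {X' : Mt n n} {X : Mt (n + 1) (n + 1)} (h : (Matrix.of X).charpoly =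
    (Polynomial.X - Polynomial.C z) * (Matrix.of X').charpoly) :
    yy (Matrix.of X) = (1 + ‖z‖ ^ 2) * yy (Matrix.of X') := by
  unfold yy
  rw [h, Polynomial.roots_mul (mul_ne_zero (Polynomial.X_sub_C_ne_zero z)
    (Matrix.charpoly_monic _).ne_zero), Polynomial.roots_X_sub_C]
  simp

theorem yy_class {X X' : Mt n n} (h : (Matrix.of X).charpoly = (Matrix.of X').charpoly) :
    yy (Matrix.of X) = yy (Matrix.of X') := by
  unfold yy
  rw [h]

theorem measurable_inv2 (i j : Fin n) : Measurable fun B : Mt n n => (Matrix.of B)⁻¹ i j := by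
  have h : Continuous fun X : Mt n n => (Matrix.of X : Matrix (Fin n) (Fin n) ℂ) := continuous_id
  simp only [inv_eq_adj', Matrix.smul_apply, smul_eq_mul]
  exact h.matrix_det.measurable.inv.mul (h.matrix_adjugate.matrix_elem i j).measurable

theorem measurable_AB : Measurable fun x : Mt n n × Mt n n =>
    (fun i j => (Matrix.of x.1 * (Matrix.of x.2)⁻¹) i j : Mt n n) := by
  refine measurable_pi_iff.2 fun i => measurable_pi_iff.2 fun j => ?_
  change Measurable fun x : Mt n n × Mt n n => (Matrix.of x.1 * (Matrix.of x.2)⁻¹) i j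
  simp only [Matrix.mul_apply, Matrix.of_apply]
  refine Finset.measurable_sum _ fun k _ => Measurable.mul ?_ ?_
  · exact (measurable_pi_apply k).comp ((measurable_pi_apply i).comp measurable_fst)
  · exact (measurable_inv2 k j).comp measurable_snd

theorem measurable_Y2 : Measurable (Y2 : Mt n n × Mt n n → ℝ) := by
  unfold Y2
  refine Measurable.mul ?_ ?_
  · have h : Continuous fun x : Mt n n × Mt n n => ‖dt x.2‖ ^ 2 := by
      unfold dt
      have h : Continuous fun x : Mt n n × Mt n n => (Matrix.of x.2 : Matrix (Fin n) (Fin n) ℂ) :=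
        continuous_snd
      exact h.matrix_det.norm.pow 2
    exact h.measurable
  · exact measurable_yy.comp measurable_AB

end Pool.Agent.K7.H96.GMC
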